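import Pool.Agent.Zk94.IG.EC

/-! # Ehrenfeucht–Fraïssé relations and uniformly definable relations -/

set_option autoImplicit false
set_option linter.unusedVariables false

namespace Pool.Agent.Zk94.IG

open Function

section

variable {G H : Type} [Group G] [Group H]

/-- the pairs of `L` have the same atomic type -/
def EQ0 (L : Set (G × H)) : Prop :=
  ∀ p ∈ L, ∀ q ∈ L, (p.1 = q.1 ↔ p.2 = q.2) ∧ ∀ r ∈ L, (p.1 * q.1 = r.1 ↔ p.2 * q.2 = r.2)

/-- the back-and-forth relation of depth `k` -/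
def EQ : ℕ → Set (G × H) → Prop
  | 0, L => EQ0 L
  | k + 1, L => (∀ a, ∃ b, EQ k (insert (a, b) L)) ∧ ∀ b, ∃ a, EQ k (insert (a, b) L)

theorem EQ.mono {k : ℕ} : ∀ {L L' : Set (G × H)}, EQ k L' → L ⊆ L' → EQ k L := by
  induction k with
  | zero =>
    intro L L' h hL p hp q hq
    exact ⟨(h p (hL hp) q (hL hq)).1, fun r hr => (h p (hL hp) q (hL hq)).2 r (hL hr)⟩
  | succ k ih =>
    intro L L' h hL
    refine ⟨fun a => ?_, fun b => ?_⟩
    · obtain ⟨b, hb⟩ := h.1 a
      exact ⟨b, ih hb (Set.insert_subset_insert hL)⟩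
    · obtain ⟨a, ha⟩ := h.2 b
      exact ⟨a, ih ha (Set.insert_subset_insert hL)⟩

theorem EQ.down {k : ℕ} {L : Set (G × H)} (h : EQ (k + 1) L) : EQ k L := by
  obtain ⟨b, hb⟩ := h.1 1
  exact hb.mono (Set.subset_insert _ _)

theorem EQ.le {k l : ℕ} {L : Set (G × H)} (h : EQ k L) (hl : l ≤ k) : EQ l L := by
  induction hl with
  | refl => exact h
  | step _ ih => exact ih h.down

theorem EQ.zero {k : ℕ} {L : Set (G × H)} (h : EQ k L) : EQ0 L := h.le (Nat.zero_le k)

theorem EQ.swap {k : ℕ} : ∀ {L : Set (G × H)}, EQ k L → EQ k {p : H × G | (p.2, p.1) ∈ L} := by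
  induction k with
  | zero =>
    intro L h p hp q hq
    exact ⟨(h _ hp _ hq).1.symm, fun r hr => ((h _ hp _ hq).2 _ hr).symm⟩
  | succ k ih =>
    intro L h
    refine ⟨fun a => ?_, fun b => ?_⟩
    · obtain ⟨b, hb⟩ := h.2 a
      refine ⟨b, (ih hb).mono ?_⟩
      rintro ⟨p, q⟩ (h1 | h1)
      · obtain ⟨rfl, rfl⟩ := Prod.ext_iff.1 h1
        exact Or.inl rfl
      · exact Or.inr h1
    · obtain ⟨a, ha⟩ := h.1 b
      refine ⟨a, (ih ha).mono ?_⟩
      rintro ⟨p, q⟩ (h1 | h1)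
      · obtain ⟨rfl, rfl⟩ := Prod.ext_iff.1 h1
        exact Or.inl rfl
      · exact Or.inr h1

end

/-- An existentially closed group with an element of infinite order. -/
structure PG where
  /-- the group -/
  G : Type
  /-- the group structure -/
  [grp : Group G]
  ec : EC G
  /-- the element -/
  t : G
  inf : ¬ IsOfFinOrder t

attribute [instance] PG.grp

/-- the environments `x` and `y` are in `L` -/
structure Adm {α : Type} (P Q : PG) (L : Set (P.G × Q.G)) (x : α → P.G) (y : α → Q.G) : Prop where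
  t : (P.t, Q.t) ∈ L
  x : ∀ i, (x i, y i) ∈ L

theorem Adm.mono {α : Type} {P Q : PG} {L L' : Set (P.G × Q.G)} {x : α → P.G} {y : α → Q.G}
    (h : Adm P Q L x y) (hL : L ⊆ L') : Adm P Q L' x y := ⟨hL h.t, fun i => hL (h.x i)⟩

theorem Adm.cons {α : Type} {P Q : PG} {L : Set (P.G × Q.G)} {x : α → P.G} {y : α → Q.G}
    (h : Adm P Q L x y) (a : P.G) (b : Q.G) : Adm (α := Option α) P Q (insert (a, b) L)
      (fun o => o.elim a x) (fun o => o.elim b y) := by
  refine ⟨Or.inr h.t, fun i => ?_⟩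
  cases i with
  | none => exact Or.inl rfl
  | some i => exact Or.inr (h.x i)

theorem Adm.rn {α β : Type} {P Q : PG} {L : Set (P.G × Q.G)} {x : α → P.G} {y : α → Q.G}
    (h : Adm P Q L x y) (σ : β → α) : Adm P Q L (fun i => x (σ i)) (fun i => y (σ i)) :=
  ⟨h.t, fun i => h.x (σ i)⟩

/-- `R` is definable, uniformly in the group. -/
def Def {α : Type} (R : ∀ P : PG, (α → P.G) → Prop) : Prop :=
  ∃ k, ∀ (P Q : PG) (L : Set (P.G × Q.G)) (x : α → P.G) (y : α → Q.G), Adm P Q L x y → EQ k L →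
    (R P x ↔ R Q y)

/-- `f` is definable, uniformly in the group. -/
def DefF {α : Type} (f : ∀ P : PG, (α → P.G) → P.G) : Prop :=
  ∀ k, ∃ K, ∀ (P Q : PG) (L : Set (P.G × Q.G)) (x : α → P.G) (y : α → Q.G), Adm P Q L x y →
    EQ K L → EQ k (insert (f P x, f Q y) L)

variable {α β : Type}

theorem Def.and {R S : ∀ P : PG, (α → P.G) → Prop} (hR : Def R) (hS : Def S) :
    Def (fun P x => R P x ∧ S P x) := by
  obtain ⟨k, hk⟩ := hR
  obtain ⟨l, hl⟩ := hS
  exact ⟨max k l, fun P Q L x y h hL => and_congr (hk P Q L x y h (hL.le (le_max_left _ _)))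
    (hl P Q L x y h (hL.le (le_max_right _ _)))⟩

theorem Def.not {R : ∀ P : PG, (α → P.G) → Prop} (hR : Def R) : Def (fun P x => ¬ R P x) := by
  obtain ⟨k, hk⟩ := hR
  exact ⟨k, fun P Q L x y h hL => not_congr (hk P Q L x y h hL)⟩

theorem Def.congr {R S : ∀ P : PG, (α → P.G) → Prop} (hR : Def R)
    (h : ∀ P x, S P x ↔ R P x) : Def S := by
  have : S = R := by
    funext P x
    exact propext (h P x)
  rwa [this]

theorem Def.or {R S : ∀ P : PG, (α → P.G) → Prop} (hR : Def R) (hS : Def S) :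
    Def (fun P x => R P x ∨ S P x) :=
  (hR.not.and hS.not).not.congr (fun P x => by tauto)

theorem Def.imp {R S : ∀ P : PG, (α → P.G) → Prop} (hR : Def R) (hS : Def S) :
    Def (fun P x => R P x → S P x) :=
  (hR.and hS.not).not.congr (fun P x => by tauto)

theorem Def.ex {R : ∀ P : PG, (α → P.G) → P.G → Prop}
    (h : Def (α := Option α) (fun P x => R P (fun i => x (some i)) (x none))) :
    Def (fun P x => ∃ a, R P x a) := by
  obtain ⟨k, hk⟩ := h
  refine ⟨k + 1, fun P Q L x y h hL => ⟨?_, ?_⟩⟩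
  · rintro ⟨a, ha⟩
    obtain ⟨b, hb⟩ := hL.1 a
    exact ⟨b, (hk P Q _ _ _ (h.cons a b) hb).1 ha⟩
  · rintro ⟨b, hb'⟩
    obtain ⟨a, ha⟩ := hL.2 b
    exact ⟨a, (hk P Q _ _ _ (h.cons a b) ha).2 hb'⟩

theorem Def.all {R : ∀ P : PG, (α → P.G) → P.G → Prop}
    (h : Def (α := Option α) (fun P x => R P (fun i => x (some i)) (x none))) :
    Def (fun P x => ∀ a, R P x a) :=
  (Def.ex (R := fun P x a => ¬ R P x a) h.not).not.congr (fun P x => by push Not; rfl)

theorem Def.rn {R : ∀ P : PG, (α → P.G) → Prop} (hR : Def R) (σ : α → β) :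
    Def (fun P (x : β → P.G) => R P (fun i => x (σ i))) := by
  obtain ⟨k, hk⟩ := hR
  exact ⟨k, fun P Q L x y h hL => hk P Q L _ _ (h.rn σ) hL⟩

theorem DefF.rn {f : ∀ P : PG, (α → P.G) → P.G} (hf : DefF f) (σ : α → β) :
    DefF (fun P (x : β → P.G) => f P (fun i => x (σ i))) := by
  intro k
  obtain ⟨K, hK⟩ := hf k
  exact ⟨K, fun P Q L x y h hL => hK P Q L _ _ (h.rn σ) hL⟩

theorem DefF.var (i : α) : DefF (fun P (x : α → P.G) => x i) := by
  intro k
  refine ⟨k, fun P Q L x y h hL => hL.mono ?_⟩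
  exact Set.insert_subset (h.x i) le_rfl

theorem DefF.t : DefF (fun P (_ : α → P.G) => P.t) := by
  intro k
  refine ⟨k, fun P Q L x y h hL => hL.mono ?_⟩
  exact Set.insert_subset h.t le_rfl

theorem DefF.one : DefF (fun P (_ : α → P.G) => 1) := by
  intro k
  refine ⟨k + 1, fun P Q L x y h hL => ?_⟩
  obtain ⟨b, hb⟩ := hL.1 1
  have h1 := (hb.zero _ (Set.mem_insert _ _) _ (Set.mem_insert _ _)).2 _ (Set.mem_insert _ _)
  have h2 : b * b = b := h1.1 (one_mul 1)
  have h3 : b = 1 := by simpa using h2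
  rwa [h3] at hb

theorem DefF.mul {f g : ∀ P : PG, (α → P.G) → P.G} (hf : DefF f) (hg : DefF g) :
    DefF (fun P x => f P x * g P x) := by
  intro k
  obtain ⟨K, hK⟩ := hf (k + 1)
  obtain ⟨K', hK'⟩ := hg K
  refine ⟨K', fun P Q L x y h hL => ?_⟩
  have h1 := hK' P Q L x y h hL
  have h2 := hK P Q _ x y (h.mono (Set.subset_insert _ _)) h1
  obtain ⟨b, hb⟩ := h2.1 (f P x * g P x)
  have h3 := (hb.zero (f P x, f Q y) (Or.inr (Or.inl rfl)) (g P x, g Q y)
    (Or.inr (Or.inr (Or.inl rfl)))).2 _ (Set.mem_insert _ _)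
  have h4 : f Q y * g Q y = b := h3.1 rfl
  subst h4
  exact hb.mono (Set.insert_subset_insert
    ((Set.subset_insert _ _).trans (Set.subset_insert _ _)))

theorem DefF.inv {f : ∀ P : PG, (α → P.G) → P.G} (hf : DefF f) :
    DefF (fun P x => (f P x)⁻¹) := by
  intro k
  obtain ⟨K, hK⟩ := hf (k + 1)
  obtain ⟨K', hK'⟩ := (DefF.one (α := α)) K
  refine ⟨K', fun P Q L x y h hL => ?_⟩
  have h1 := hK' P Q L x y h hL
  have h2 := hK P Q _ x y (h.mono (Set.subset_insert _ _)) h1
  obtain ⟨b, hb⟩ := h2.1 (f P x)⁻¹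
  have h3 := (hb.zero (f P x, f Q y) (Or.inr (Or.inl rfl)) _ (Set.mem_insert _ _)).2 (1, 1)
    (Or.inr (Or.inr (Or.inl rfl)))
  have h4 : f Q y * b = 1 := h3.1 (mul_inv_cancel _)
  have h5 : b = (f Q y)⁻¹ := (inv_eq_of_mul_eq_one_right h4).symm
  subst h5
  exact hb.mono (Set.insert_subset_insert
    ((Set.subset_insert _ _).trans (Set.subset_insert _ _)))

theorem Def.eq {f g : ∀ P : PG, (α → P.G) → P.G} (hf : DefF f) (hg : DefF g) :
    Def (fun P x => f P x = g P x) := by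
  obtain ⟨K, hK⟩ := hf 0
  obtain ⟨K', hK'⟩ := hg K
  refine ⟨K', fun P Q L x y h hL => ?_⟩
  have h1 := hK' P Q L x y h hL
  have h2 := hK P Q _ x y (h.mono (Set.subset_insert _ _)) h1
  exact (h2 (f P x, f Q y) (Or.inl rfl) (g P x, g Q y) (Or.inr (Or.inl rfl))).1

theorem DefF.of_graph {f : ∀ P : PG, (α → P.G) → P.G} {R : ∀ P : PG, (α → P.G) → P.G → Prop}
    (h : Def (α := Option α) (fun P x => R P (fun i => x (some i)) (x none)))
    (hR : ∀ P x y, y = f P x ↔ R P x y) : DefF f := by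
  obtain ⟨l, hl⟩ := h
  intro k
  refine ⟨max k l + 1, fun P Q L x y h hL => ?_⟩
  obtain ⟨b, hb⟩ := hL.1 (f P x)
  have h1 := (hl P Q _ _ _ (h.cons _ b) (hb.le (le_max_right _ _))).1 ((hR _ _ _).1 rfl)
  have h2 : b = f Q y := (hR _ _ _).2 h1
  subst h2
  exact hb.le (le_max_left _ _)

theorem DefF.fin [Finite β] {f : β → ∀ P : PG, (α → P.G) → P.G} (hf : ∀ b, DefF (f b)) :
    ∀ k, ∃ K, ∀ (P Q : PG) (L : Set (P.G × Q.G)) (x : α → P.G) (y : α → Q.G), Adm P Q L x y →
      EQ K L → EQ k (L ∪ Set.range (fun b => (f b P x, f b Q y))) := by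
  classical
  have := Fintype.ofFinite β
  have key : ∀ S : Finset β, ∀ k, ∃ K, ∀ (P Q : PG) (L : Set (P.G × Q.G)) (x : α → P.G)
      (y : α → Q.G), Adm P Q L x y →
      EQ K L → EQ k (L ∪ (fun b => (f b P x, f b Q y)) '' S) := by
    intro S
    induction S using Finset.induction_on with
    | empty =>
      intro k
      refine ⟨k, fun P Q L x y _ hL => ?_⟩
      simpa using hL
    | insert b S _ ih =>
      intro k
      obtain ⟨K, hK⟩ := hf b k
      obtain ⟨K', hK'⟩ := ih K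
      refine ⟨K', fun P Q L x y h hL => ?_⟩
      have h1 := hK' P Q L x y h hL
      have h2 := hK P Q _ x y (h.mono Set.subset_union_left) h1
      refine h2.mono ?_
      rintro p (hp | ⟨c, hc, rfl⟩)
      · exact Or.inr (Or.inl hp)
      · rcases Finset.mem_insert.1 hc with rfl | hc
        · exact Or.inl rfl
        · exact Or.inr (Or.inr ⟨c, hc, rfl⟩)
  intro k
  obtain ⟨K, hK⟩ := key Finset.univ k
  refine ⟨K, fun P Q L x y h hL => ?_⟩
  have := hK P Q L x y h hL
  rwa [Finset.coe_univ, Set.image_univ] at this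

theorem Def.comp [Finite β] {R : ∀ P : PG, (β → P.G) → Prop} (hR : Def R)
    {f : β → ∀ P : PG, (α → P.G) → P.G} (hf : ∀ b, DefF (f b)) :
    Def (fun P x => R P (fun b => f b P x)) := by
  obtain ⟨k, hk⟩ := hR
  obtain ⟨K, hK⟩ := DefF.fin hf k
  refine ⟨K, fun P Q L x y h hL => hk P Q _ _ _ ⟨Or.inl h.t, fun b => Or.inr ⟨b, rfl⟩⟩
    (hK P Q L x y h hL)⟩

theorem DefF.comp [Finite β] {g : ∀ P : PG, (β → P.G) → P.G} (hg : DefF g)
    {f : β → ∀ P : PG, (α → P.G) → P.G} (hf : ∀ b, DefF (f b)) :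
    DefF (fun P x => g P (fun b => f b P x)) := by
  intro k
  obtain ⟨l, hl⟩ := hg k
  obtain ⟨K, hK⟩ := DefF.fin hf l
  refine ⟨K, fun P Q L x y h hL => (hl P Q _ _ _ ⟨Or.inl h.t, fun b => Or.inr ⟨b, rfl⟩⟩
    (hK P Q L x y h hL)).mono (Set.insert_subset_insert Set.subset_union_left)⟩

/-! ### Integers -/

/-- the discrete logarithm to the base `t` -/
noncomputable def lg {G : Type} [Group G] (t a : G) : ℤ :=
  open Classical in if h : ∃ n : ℤ, t ^ n = a then h.choose else 0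

theorem lg_zpow {G : Type} [Group G] {t : G} (ht : ¬ IsOfFinOrder t) (n : ℤ) :
    lg t (t ^ n) = n := by
  have h : ∃ m : ℤ, t ^ m = t ^ n := ⟨n, rfl⟩
  unfold lg
  rw [dif_pos h]
  exact injective_zpow_iff_not_isOfFinOrder.2 ht h.choose_spec

theorem zpow_lg {G : Type} [Group G] {t a : G} (h : a ∈ Subgroup.zpowers t) :
    t ^ (lg t a) = a := by
  have h' : ∃ m : ℤ, t ^ m = a := h
  unfold lg
  rw [dif_pos h']
  exact h'.choose_spec

theorem zpow_lg' {G : Type} [Group G] {t a : G} (h : a ∉ Subgroup.zpowers t) :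
    t ^ (lg t a) = 1 := by
  have h' : ¬ ∃ m : ℤ, t ^ m = a := h
  unfold lg
  rw [dif_neg h', zpow_zero]

/-- `F` is a definable integer valued function -/
def DefZ (F : ∀ P : PG, (α → P.G) → ℤ) : Prop := DefF (fun P x => P.t ^ (F P x))

theorem DefZ.zpow {F : ∀ P : PG, (α → P.G) → ℤ} (h : DefZ F) : DefF (fun P x => P.t ^ (F P x)) := h

theorem DefZ.rn {F : ∀ P : PG, (α → P.G) → ℤ} (hf : DefZ F) (σ : α → β) :
    DefZ (fun P (x : β → P.G) => F P (fun i => x (σ i))) := DefF.rn hf σ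

theorem DefZ.comp [Finite β] {F : ∀ P : PG, (β → P.G) → ℤ} (hg : DefZ F)
    {f : β → ∀ P : PG, (α → P.G) → P.G} (hf : ∀ b, DefF (f b)) :
    DefZ (fun P x => F P (fun b => f b P x)) := DefF.comp hg hf

theorem DefF.congr {f g : ∀ P : PG, (α → P.G) → P.G} (hf : DefF f) (h : ∀ P x, g P x = f P x) :
    DefF g := by
  have : g = f := by
    funext P x
    exact h P x
  rwa [this]

theorem DefZ.congr {F F' : ∀ P : PG, (α → P.G) → ℤ} (hf : DefZ F) (h : ∀ P x, F' P x = F P x) :
    DefZ F' := by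
  have : F' = F := by
    funext P x
    exact h P x
  rwa [this]

theorem Def.mem : Def (fun P (x : Option α → P.G) => x none ∈ Subgroup.zpowers P.t) := by
  have h1 : Def (fun P (x : Option α → P.G) => ∀ z : P.G, z * P.t = P.t * z →
      z * x none = x none * z) :=
    Def.all (Def.imp (Def.eq (DefF.mul (DefF.var none) DefF.t) (DefF.mul DefF.t (DefF.var none)))
      (Def.eq (DefF.mul (DefF.var none) (DefF.var (some none)))
        (DefF.mul (DefF.var (some none)) (DefF.var none))))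
  exact h1.congr (fun P x => P.ec.mem_zpowers)

theorem DefZ.lg0 : DefZ (fun P (x : Option α → P.G) => lg P.t (x none)) := by
  have h1 : Def (fun P (x : Option (Option α) → P.G) =>
      ((x (some none)) ∈ Subgroup.zpowers P.t ∧ x none = x (some none)) ∨
      (¬ ((x (some none)) ∈ Subgroup.zpowers P.t) ∧ x none = 1)) := by
    have h2 : Def (fun P (x : Option (Option α) → P.G) => (x (some none)) ∈
        Subgroup.zpowers P.t) := Def.mem.rn (α := Option α) some
    exact (h2.and (Def.eq (DefF.var none) (DefF.var (some none)))).or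
      (h2.not.and (Def.eq (DefF.var none) DefF.one))
  refine DefF.of_graph (R := fun P x y => ((x none) ∈ Subgroup.zpowers P.t ∧ y = x none) ∨
      (¬ ((x none) ∈ Subgroup.zpowers P.t) ∧ y = 1)) h1 (fun P x y => ?_)
  by_cases h : x none ∈ Subgroup.zpowers P.t
  · rw [zpow_lg h]
    simp [h]
  · rw [zpow_lg' h]
    simp [h]

theorem DefZ.lg {f : ∀ P : PG, (α → P.G) → P.G} (hf : DefF f) :
    DefZ (fun P x => lg P.t (f P x)) := by
  have h1 := DefZ.comp (α := α) (β := Option Empty) (DefZ.lg0 (α := Empty))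
    (f := fun _ => f) (fun _ => hf)
  exact h1

theorem Def.exZ {R : ∀ P : PG, (α → P.G) → ℤ → Prop}
    (h : Def (α := Option α) (fun P x => R P (fun i => x (some i)) (IG.lg P.t (x none)))) :
    Def (fun P x => ∃ n, R P x n) := by
  refine (Def.ex (R := fun P x a => R P x (IG.lg P.t a)) h).congr (fun P x => ⟨?_, ?_⟩)
  · rintro ⟨n, hn⟩
    exact ⟨P.t ^ n, by rwa [lg_zpow P.inf]⟩
  · rintro ⟨a, ha⟩
    exact ⟨_, ha⟩

theorem Def.allZ {R : ∀ P : PG, (α → P.G) → ℤ → Prop}
    (h : Def (α := Option α) (fun P x => R P (fun i => x (some i)) (IG.lg P.t (x none)))) :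
    Def (fun P x => ∀ n, R P x n) :=
  (Def.exZ (R := fun P x a => ¬ R P x a) h.not).not.congr (fun P x => by push Not; rfl)

theorem DefZ.add {F F' : ∀ P : PG, (α → P.G) → ℤ} (h : DefZ F) (h' : DefZ F') :
    DefZ (fun P x => F P x + F' P x) :=
  DefF.congr (DefF.mul h h') (fun P x => zpow_add _ _ _)

theorem DefZ.neg {F : ∀ P : PG, (α → P.G) → ℤ} (h : DefZ F) : DefZ (fun P x => -F P x) :=
  DefF.congr (DefF.inv h) (fun P x => zpow_neg _ _)

theorem DefZ.sub {F F' : ∀ P : PG, (α → P.G) → ℤ} (h : DefZ F) (h' : DefZ F') :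
    DefZ (fun P x => F P x - F' P x) :=
  (h.add h'.neg).congr (fun P x => sub_eq_add_neg _ _)

theorem DefZ.zero : DefZ (fun P (_ : α → P.G) => 0) :=
  DefF.congr DefF.one (fun P x => zpow_zero _)

theorem DefZ.one : DefZ (fun P (_ : α → P.G) => 1) :=
  DefF.congr DefF.t (fun P x => zpow_one _)

theorem DefZ.nat (n : ℕ) : DefZ (fun P (_ : α → P.G) => (n : ℤ)) := by
  induction n with
  | zero => exact DefZ.zero
  | succ n ih => exact (ih.add DefZ.one).congr (fun P x => by push_cast; rfl)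

theorem DefZ.const (n : ℤ) : DefZ (fun P (_ : α → P.G) => n) := by
  rcases Int.eq_nat_or_neg n with ⟨m, rfl | rfl⟩
  · exact DefZ.nat m
  · exact (DefZ.nat m).neg

theorem Def.eqZ {F F' : ∀ P : PG, (α → P.G) → ℤ} (h : DefZ F) (h' : DefZ F') :
    Def (fun P x => F P x = F' P x) := by
  refine (Def.eq h h').congr (fun P x => ?_)
  exact (injective_zpow_iff_not_isOfFinOrder.2 P.inf).eq_iff.symm

theorem DefZ.mul {F F' : ∀ P : PG, (α → P.G) → ℤ} (h : DefZ F) (h' : DefZ F') :
    DefZ (fun P x => F P x * F' P x) := by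
  refine DefF.of_graph (R := fun P x y => (P.t ^ (F P x) = 1 ∧ y = 1) ∨
    (¬ (P.t ^ (F P x) = 1) ∧ ∃ s, s * P.t * s⁻¹ = P.t ^ (F P x) ∧
      s * P.t ^ (F' P x) * s⁻¹ = y)) ?_ (fun P x y => ?_)
  · have hF : DefF (fun P (x : Option α → P.G) => P.t ^ (F P (fun i => x (some i)))) :=
      DefF.rn h some
    have hF1 : DefF (fun P (x : Option (Option α) → P.G) =>
      P.t ^ (F P (fun i => x (some (some i))))) := DefF.rn h (fun i => some (some i))
    have hF2 : DefF (fun P (x : Option (Option α) → P.G) =>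
      P.t ^ (F' P (fun i => x (some (some i))))) := DefF.rn h' (fun i => some (some i))
    refine ((Def.eq hF DefF.one).and (Def.eq (DefF.var none) DefF.one)).or
      ((Def.eq hF DefF.one).not.and (Def.ex ?_))
    exact (Def.eq (((DefF.var none).mul DefF.t).mul (DefF.var none).inv) hF1).and
      (Def.eq (((DefF.var none).mul hF2).mul (DefF.var none).inv) (DefF.var (some none)))
  · have hinj := injective_zpow_iff_not_isOfFinOrder.2 P.inf
    by_cases h0 : F P x = 0
    · simp [h0]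
    · have h1 : ¬ (P.t ^ (F P x) = 1) := by
        intro e
        rw [← zpow_zero P.t] at e
        exact h0 (hinj e)
      have h2 : ¬ IsOfFinOrder (P.t ^ (F P x)) := by
        rw [← injective_zpow_iff_not_isOfFinOrder]
        intro m n hmn
        simp only [← zpow_mul] at hmn
        exact mul_left_cancel₀ h0 (hinj hmn)
      have h3 : ∀ s : P.G, s * P.t * s⁻¹ = P.t ^ (F P x) →
          s * P.t ^ (F' P x) * s⁻¹ = P.t ^ (F P x * F' P x) := by
        intro s hs
        rw [← conj_zpow, hs, zpow_mul]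
      simp only [h1, false_and, false_or, not_false_eq_true, true_and]
      constructor
      · rintro rfl
        obtain ⟨s, hs⟩ := P.ec.conj P.inf h2
        exact ⟨s, hs, h3 s hs⟩
      · rintro ⟨s, hs, rfl⟩
        exact h3 s hs

theorem Def.nonneg {F : ∀ P : PG, (α → P.G) → ℤ} (h : DefZ F) : Def (fun P x => 0 ≤ F P x) := by
  have key : Def (fun P (x : α → P.G) => ∃ a b c d : ℤ, F P x = a * a + b * b + c * c + d * d) := by
    refine Def.exZ (Def.exZ (Def.exZ (Def.exZ ?_)))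
    have e : ∀ (i : Option (Option (Option (Option α)))), DefZ (fun P
      (x : Option (Option (Option (Option α))) → P.G) => IG.lg P.t (x i)) :=
        fun i => DefZ.lg (DefF.var i)
    refine Def.eqZ (DefZ.rn h (fun i => some (some (some (some i))))) ?_
    exact ((((e _).mul (e _)).add ((e _).mul (e _))).add ((e _).mul (e _))).add
      ((e _).mul (e _))
  refine key.congr (fun P x => ⟨fun h0 => ?_, ?_⟩)
  · obtain ⟨n, hn⟩ := Int.eq_ofNat_of_zero_le h0
    obtain ⟨a, b, c, d, h4⟩ := Nat.sum_four_squares n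
    refine ⟨a, b, c, d, ?_⟩
    rw [hn, ← h4]
    push_cast
    ring
  · rintro ⟨a, b, c, d, h4⟩
    rw [h4]
    have h1 := mul_self_nonneg a
    have h2 := mul_self_nonneg b
    have h3 := mul_self_nonneg c
    have h5 := mul_self_nonneg d
    linarith

theorem Def.leZ {F F' : ∀ P : PG, (α → P.G) → ℤ} (h : DefZ F) (h' : DefZ F') :
    Def (fun P x => F P x ≤ F' P x) :=
  (Def.nonneg (h'.sub h)).congr (fun P x => sub_nonneg.symm)

theorem Def.ltZ {F F' : ∀ P : PG, (α → P.G) → ℤ} (h : DefZ F) (h' : DefZ F') :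
    Def (fun P x => F P x < F' P x) :=
  (Def.leZ h' h).not.congr (fun P x => by simp)

end Pool.Agent.Zk94.IG
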