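import Pool.Agent.R283.GV.FO
import Pool.Agent.Zk94.IG.EF

/-! # Infinitely generic groups: existential closedness and back-and-forth equivalence -/

set_option autoImplicit false
set_option linter.unusedVariables false

namespace Pool.Agent.Zk94.IG

open Function FirstOrder Language
open Pool.Agent.R283.GV

/-- words are given by terms -/
theorem exists_term {ι : Type} (w : FreeGroup ι) : ∃ τ : LGrp.Term ι,
    ∀ (K : Type) [Group K] (x : ι → K), τ.realize x = FreeGroup.lift x w := by
  induction w using FreeGroup.induction_on with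
  | C1 =>
    refine ⟨Term.func (L := LGrp) (GrpFn.one : LGrp.Functions 0) ![], fun K _ x => ?_⟩
    rw [map_one]
    rfl
  | of i =>
    refine ⟨Term.var i, fun K _ x => ?_⟩
    rw [FreeGroup.lift_apply_of]
    rfl
  | inv_of i ih =>
    obtain ⟨τ, h⟩ := ih
    refine ⟨Term.func (L := LGrp) (GrpFn.inv : LGrp.Functions 1) ![τ], fun K _ x => ?_⟩
    rw [map_inv, ← h K x]
    rfl
  | mul u v hu hv =>
    obtain ⟨τ, h⟩ := hu
    obtain ⟨σ, h'⟩ := hv
    refine ⟨Term.func (L := LGrp) (GrpFn.mul : LGrp.Functions 2) ![τ, σ], fun K _ x => ?_⟩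
    rw [map_mul, ← h K x, ← h' K x]
    rfl

/-- the formula `w = 1` -/
theorem exists_wf {ι : Type} (w : FreeGroup ι) : ∃ φ : LGrp.Formula ι,
    BoundedFormula.IsQF φ ∧ ∀ (K : Type) [Group K] (x : ι → K), φ.Realize x ↔
      FreeGroup.lift x w = 1 := by
  obtain ⟨τ, hτ⟩ := exists_term w
  refine ⟨Term.equal τ (Term.func (L := LGrp) (GrpFn.one : LGrp.Functions 0) ![]), ?_,
    fun K _ x => ?_⟩
  · exact (BoundedFormula.IsAtomic.equal _ _).isQF
  · rw [Formula.realize_equal, hτ]
    exact Iff.rfl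

/-- the formula `w = 1` -/
noncomputable def wf {ι : Type} (w : FreeGroup ι) : LGrp.Formula ι := (exists_wf w).choose

theorem wf_qf {ι : Type} (w : FreeGroup ι) : BoundedFormula.IsQF (wf w) :=
  (exists_wf w).choose_spec.1

theorem wf_realize {ι : Type} (w : FreeGroup ι) {K : Type} [Group K] (x : ι → K) :
    (wf w).Realize x ↔ FreeGroup.lift x w = 1 := (exists_wf w).choose_spec.2 K x

theorem wf_not_qf {ι : Type} (w : FreeGroup ι) : BoundedFormula.IsQF (wf w).not :=
  (wf_qf w).not

theorem lift_hom {ι : Type} {K P : Type} [Group K] [Group P] (f : K →* P) (x : ι → K)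
    (w : FreeGroup ι) : f (FreeGroup.lift x w) = FreeGroup.lift (fun i => f (x i)) w := by
  have : f.comp (FreeGroup.lift x) = FreeGroup.lift (fun i => f (x i)) := by
    ext i
    simp
  rw [← this]
  rfl

theorem lift_map {ι κ : Type} {K : Type} [Group K] (σ : κ → ι) (x : ι → K)
    (w : FreeGroup κ) : FreeGroup.lift x (FreeGroup.map σ w) =
      FreeGroup.lift (fun i => x (σ i)) w := by
  have : (FreeGroup.lift x).comp (FreeGroup.map σ) = FreeGroup.lift (fun i => x (σ i)) := by
    ext i
    simp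
  rw [← this]
  rfl

/-- infinitely generic groups are existentially closed -/
theorem ec_of_ig {H : Type} [Group H] (hH : IsInfGeneric H) : EC H := by
  classical
  obtain ⟨G, iG, i, hi, hG, hel⟩ := hH
  intro p n a E N ⟨K, iK, j, x, hj, hE, hN⟩
  obtain ⟨P, iP, jG, jK, hjG, hjK, hjj⟩ := exists_amalgam hi hj
  -- the solution in `G`
  have h1 : ∃ z : Fin n → G, (∀ w ∈ E, FreeGroup.lift (Sum.elim (fun k => i (a k)) z) w = 1) ∧
      ∀ w ∈ N, FreeGroup.lift (Sum.elim (fun k => i (a k)) z) w ≠ 1 := by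
    obtain ⟨z, hz⟩ := hG p n (fun k => i (a k)) ((wf '' (E : Set _)) ∪ ((fun w => (wf w).not) ''
      (N : Set _))) (by
        rintro φ (⟨w, -, rfl⟩ | ⟨w, -, rfl⟩)
        · exact (wf_qf w).isExistential
        · exact (wf_not_qf w).isExistential)
      ⟨P, iP, jG, fun k => jK (x k), hjG, by
        have e : ∀ w : FreeGroup (Fin p ⊕ Fin n), FreeGroup.lift (Sum.elim (fun k => jG (i (a k)))
            (fun k => jK (x k))) w = jK (FreeGroup.lift (Sum.elim (fun k => j (a k)) x) w) := by
          intro w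
          rw [lift_hom]
          congr 2
          funext k
          rcases k with k | k
          · exact hjj _
          · rfl
        rintro φ (⟨w, hw, rfl⟩ | ⟨w, hw, rfl⟩)
        · rw [wf_realize, e, hE w hw, map_one]
        · rw [Formula.realize_not, wf_realize, e]
          intro h
          exact hN w hw (hjK (h.trans (map_one jK).symm))⟩
    refine ⟨z, fun w hw => ?_, fun w hw => ?_⟩
    · exact (wf_realize w _).1 (hz _ (Or.inl ⟨w, hw, rfl⟩))
    · have := hz _ (Or.inr ⟨w, hw, rfl⟩)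
      rw [Formula.realize_not, wf_realize] at this
      exact this
  -- transfer to `H`
  let θ : LGrp.Formula (Fin p ⊕ Fin n) :=
    (Formula.iInf (fun w : {w // w ∈ E} => wf w.1)) ⊓
      (Formula.iInf (fun w : {w // w ∈ N} => (wf w.1).not))
  have hθ : ∀ (K : Type) [Group K] (v : Fin p ⊕ Fin n → K), θ.Realize v ↔
      (∀ w ∈ E, FreeGroup.lift v w = 1) ∧ ∀ w ∈ N, FreeGroup.lift v w ≠ 1 := by
    intro K _ v
    rw [Formula.realize_inf, Formula.realize_iInf, Formula.realize_iInf]
    simp only [Formula.realize_not, wf_realize, Subtype.forall, ne_eq]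
  have h2 : (θ.iExs (Fin n)).Realize (fun k => i (a k)) := by
    rw [Formula.realize_iExs]
    obtain ⟨z, hz⟩ := h1
    exact ⟨z, (hθ G _).2 hz⟩
  have h3 := (hel p (θ.iExs (Fin n)) a).1 h2
  rw [Formula.realize_iExs] at h3
  obtain ⟨z, hz⟩ := h3
  exact ⟨z, (hθ H _).1 hz⟩

/-- finitely many formulas determine the back-and-forth type -/
theorem exists_formulas (k : ℕ) : ∀ n : ℕ, ∃ (ι : Type) (_ : Finite ι) (F : ι → LGrp.Formula (Fin n)),
    ∀ (G H : Type) [Group G] [Group H] (x : Fin n → G) (y : Fin n → H),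
      (∀ i, (F i).Realize x ↔ (F i).Realize y) → EQ k (Set.range (fun i => (x i, y i))) := by
  classical
  induction k with
  | zero =>
    intro n
    refine ⟨(Fin n × Fin n) ⊕ (Fin n × Fin n × Fin n), inferInstance,
      Sum.elim (fun p => wf (FreeGroup.of p.1 * (FreeGroup.of p.2)⁻¹))
        (fun p => wf (FreeGroup.of p.1 * FreeGroup.of p.2.1 * (FreeGroup.of p.2.2)⁻¹)),
      fun G H _ _ x y h => ?_⟩
    rintro _ ⟨i, rfl⟩ _ ⟨j, rfl⟩
    refine ⟨?_, ?_⟩
    · have h1 := h (Sum.inl (i, j))
      simp only [Sum.elim_inl, wf_realize, map_mul, map_inv, FreeGroup.lift_apply_of,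
        mul_inv_eq_one] at h1
      exact h1
    · rintro _ ⟨l, rfl⟩
      have h1 := h (Sum.inr (i, j, l))
      simp only [Sum.elim_inr, wf_realize, map_mul, map_inv, FreeGroup.lift_apply_of,
        mul_inv_eq_one] at h1
      exact h1
  | succ k ih =>
    intro n
    obtain ⟨ι, hι, F, hF⟩ := ih (n + 1)
    let Fs : (ι → Bool) → LGrp.Formula (Fin n) := fun s =>
      ((Formula.iInf (fun i => if s i then F i else (F i).not)).relabel
        (finSumFinEquiv.symm : Fin (n + 1) ≃ Fin n ⊕ Fin 1)).iExs (Fin 1)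
    have hFs : ∀ (s : ι → Bool) (K : Type) [Group K] (x : Fin n → K), (Fs s).Realize x ↔
        ∃ a : K, ∀ i, (s i = true ↔ (F i).Realize (Fin.snoc x a : Fin (n + 1) → K)) := by
      intro s K _ x
      show (((Formula.iInf (fun i => if s i then F i else (F i).not)).relabel
        (finSumFinEquiv.symm : Fin (n + 1) ≃ Fin n ⊕ Fin 1)).iExs (Fin 1)).Realize x ↔ _
      rw [Formula.realize_iExs]
      have e : ∀ z : Fin 1 → K, (Sum.elim x z ∘ (finSumFinEquiv.symm : Fin (n + 1) ≃ Fin n ⊕ Fin 1))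
          = (Fin.snoc x (z 0) : Fin (n + 1) → K) := by
        intro z
        funext l
        refine Fin.lastCases ?_ (fun l => ?_) l
        · have : (finSumFinEquiv.symm : Fin (n + 1) ≃ Fin n ⊕ Fin 1) (Fin.last n) = Sum.inr 0 := by
            rw [Equiv.symm_apply_eq]
            rfl
          simp only [comp_apply, this, Sum.elim_inr, Fin.snoc_last]
        · have : (finSumFinEquiv.symm : Fin (n + 1) ≃ Fin n ⊕ Fin 1) l.castSucc = Sum.inl l := by
            rw [Equiv.symm_apply_eq]
            rfl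
          simp only [comp_apply, this, Sum.elim_inl, Fin.snoc_castSucc]
      simp only [Formula.realize_relabel, e, Formula.realize_iInf]
      constructor
      · rintro ⟨z, hz⟩
        refine ⟨z 0, fun i => ?_⟩
        have h1 := hz i
        cases hs : s i with
        | true =>
          rw [hs, if_pos rfl] at h1
          exact iff_of_true rfl h1
        | false =>
          rw [hs, if_neg (by simp), Formula.realize_not] at h1
          exact iff_of_false (by simp) h1
      · rintro ⟨a, ha⟩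
        refine ⟨fun _ => a, fun i => ?_⟩
        have h1 := ha i
        cases hs : s i with
        | true =>
          rw [hs] at h1
          rw [if_pos rfl]
          exact h1.1 rfl
        | false =>
          rw [hs] at h1
          rw [if_neg (by simp), Formula.realize_not]
          intro h2
          exact absurd (h1.2 h2) (by simp)
    refine ⟨ι → Bool, inferInstance, Fs, fun G H _ _ x y h => ⟨fun a => ?_, fun b => ?_⟩⟩
    · let s : ι → Bool := fun i => decide ((F i).Realize (Fin.snoc x a : Fin (n + 1) → G))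
      have h1 : (Fs s).Realize x := (hFs s G x).2 ⟨a, fun i => decide_eq_true_iff⟩
      obtain ⟨b, hb⟩ := (hFs s H y).1 ((h s).1 h1)
      refine ⟨b, (hF G H (Fin.snoc x a) (Fin.snoc y b) fun i =>
        (decide_eq_true_iff.symm.trans (hb i))).mono ?_⟩
      rintro p (rfl | ⟨i, rfl⟩)
      · exact ⟨Fin.last n, by simp⟩
      · exact ⟨i.castSucc, by simp⟩
    · let s : ι → Bool := fun i => decide ((F i).Realize (Fin.snoc y b : Fin (n + 1) → H))
      have h1 : (Fs s).Realize y := (hFs s H y).2 ⟨b, fun i => decide_eq_true_iff⟩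
      obtain ⟨a, ha⟩ := (hFs s G x).1 ((h s).2 h1)
      refine ⟨a, (hF G H (Fin.snoc x a) (Fin.snoc y b) fun i =>
        ((ha i).symm.trans decide_eq_true_iff)).mono ?_⟩
      rintro p (rfl | ⟨i, rfl⟩)
      · exact ⟨Fin.last n, by simp⟩
      · exact ⟨i.castSucc, by simp⟩

/-- composition -/
theorem EQ.comp {G H K : Type} [Group G] [Group H] [Group K] {k : ℕ} :
    ∀ {L : Set (G × H)} {M : Set (H × K)}, EQ k L → EQ k M →
      EQ k {p : G × K | ∃ b, (p.1, b) ∈ L ∧ (b, p.2) ∈ M} := by
  induction k with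
  | zero =>
    intro L M hL hM p ⟨b1, h1, h1'⟩ q ⟨b2, h2, h2'⟩
    refine ⟨((hL _ h1 _ h2).1).trans (hM _ h1' _ h2').1, ?_⟩
    rintro r ⟨b3, h3, h3'⟩
    exact ((hL _ h1 _ h2).2 _ h3).trans ((hM _ h1' _ h2').2 _ h3')
  | succ k ih =>
    intro L M hL hM
    refine ⟨fun a => ?_, fun c => ?_⟩
    · obtain ⟨b, hb⟩ := hL.1 a
      obtain ⟨c, hc⟩ := hM.1 b
      refine ⟨c, (ih hb hc).mono ?_⟩
      rintro p (rfl | ⟨b', h1, h2⟩)
      · exact ⟨b, Or.inl rfl, Or.inl rfl⟩
      · exact ⟨b', Or.inr h1, Or.inr h2⟩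
    · obtain ⟨b, hb⟩ := hM.2 c
      obtain ⟨a, ha⟩ := hL.2 b
      refine ⟨a, (ih ha hb).mono ?_⟩
      rintro p (rfl | ⟨b', h1, h2⟩)
      · exact ⟨b, Or.inl rfl, Or.inl rfl⟩
      · exact ⟨b', Or.inr h1, Or.inr h2⟩

theorem EQ.comp_empty {G H K : Type} [Group G] [Group H] [Group K] {k : ℕ}
    (h1 : EQ k (∅ : Set (G × H))) (h2 : EQ k (∅ : Set (H × K))) : EQ k (∅ : Set (G × K)) :=
  (h1.comp h2).mono (Set.empty_subset _)

theorem EQ.swap_empty {G H : Type} [Group G] [Group H] {k : ℕ} (h : EQ k (∅ : Set (G × H))) :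
    EQ k (∅ : Set (H × G)) := h.swap.mono (Set.empty_subset _)

/-- groups with the same sentences -/
theorem eq_of_sentences {G H : Type} [Group G] [Group H]
    (h : ∀ φ : LGrp.Formula (Fin 0), φ.Realize (Fin.elim0 : Fin 0 → G) ↔
      φ.Realize (Fin.elim0 : Fin 0 → H)) (k : ℕ) : EQ k (∅ : Set (G × H)) := by
  obtain ⟨ι, _, F, hF⟩ := exists_formulas k 0
  exact (hF G H Fin.elim0 Fin.elim0 (fun i => h _)).mono (Set.empty_subset _)

/-- the same quantifier free type -/
def SQF {ι G H : Type} [Group G] [Group H] (x : ι → G) (y : ι → H) : Prop :=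
  ∀ w : FreeGroup ι, FreeGroup.lift x w = 1 ↔ FreeGroup.lift y w = 1

theorem SQF.symm {ι G H : Type} [Group G] [Group H] {x : ι → G} {y : ι → H} (h : SQF x y) :
    SQF y x := fun w => (h w).symm

theorem SQF.rn {ι κ G H : Type} [Group G] [Group H] {x : ι → G} {y : ι → H} (h : SQF x y)
    (σ : κ → ι) : SQF (fun i => x (σ i)) (fun i => y (σ i)) := by
  intro w
  rw [← lift_map σ x, ← lift_map σ y]
  exact h _

theorem SQF.ext {n : ℕ} {G H : Type} [Group G] [Group H] (hH : IsExSat H) {x : Fin n → G}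
    {y : Fin n → H} (h : SQF x y) (a : G) : ∃ b : H,
      SQF (Sum.elim x (fun _ : Fin 1 => a)) (Sum.elim y (fun _ : Fin 1 => b)) := by
  classical
  -- the group generated by the tuple
  have hker : (FreeGroup.lift x).ker = (FreeGroup.lift y).ker := by
    ext w
    rw [MonoidHom.mem_ker, MonoidHom.mem_ker]
    exact h w
  let A := FreeGroup (Fin n) ⧸ (FreeGroup.lift x).ker
  let f : A →* G := QuotientGroup.kerLift (FreeGroup.lift x)
  let g : A →* H := QuotientGroup.lift (FreeGroup.lift x).ker (FreeGroup.lift y)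
    (fun w hw => (h w).1 hw)
  have hf : Injective f := QuotientGroup.kerLift_injective _
  have hg : Injective g := by
    rw [injective_iff_map_eq_one]
    intro q hq
    obtain ⟨w, rfl⟩ := QuotientGroup.mk_surjective q
    rw [QuotientGroup.eq_one_iff, MonoidHom.mem_ker]
    exact (h w).2 hq
  obtain ⟨P, iP, jG, jH, hjG, hjH, hjj⟩ := exists_amalgam hf hg
  have hx : ∀ i, jG (x i) = jH (y i) := by
    intro i
    have h1 := hjj (QuotientGroup.mk (FreeGroup.of i))
    have h2 : f (QuotientGroup.mk (FreeGroup.of i)) = x i := by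
      show FreeGroup.lift x (FreeGroup.of i) = x i
      simp
    have h3 : g (QuotientGroup.mk (FreeGroup.of i)) = y i := by
      show FreeGroup.lift y (FreeGroup.of i) = y i
      simp
    rw [h2, h3] at h1
    exact h1
  have e : ∀ w : FreeGroup (Fin n ⊕ Fin 1), FreeGroup.lift (Sum.elim (fun k => jH (y k))
      (fun _ : Fin 1 => jG a)) w = jG (FreeGroup.lift (Sum.elim x (fun _ => a)) w) := by
    intro w
    rw [lift_hom]
    congr 2
    funext k
    rcases k with k | k
    · exact (hx k).symm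
    · rfl
  obtain ⟨z, hz⟩ := hH n 1 y
    ({φ | ∃ w, FreeGroup.lift (Sum.elim x (fun _ => a)) w = 1 ∧ φ = wf w} ∪
      {φ | ∃ w, FreeGroup.lift (Sum.elim x (fun _ => a)) w ≠ 1 ∧ φ = (wf w).not}) (by
        rintro φ (⟨w, -, rfl⟩ | ⟨w, -, rfl⟩)
        · exact (wf_qf w).isExistential
        · exact (wf_not_qf w).isExistential)
      ⟨P, iP, jH, fun _ => jG a, hjH, by
        rintro φ (⟨w, hw, rfl⟩ | ⟨w, hw, rfl⟩)
        · rw [wf_realize, e, hw, map_one]
        · rw [Formula.realize_not, wf_realize, e]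
          intro h
          exact hw (hjG (h.trans (map_one jG).symm))⟩
  refine ⟨z 0, fun w => ?_⟩
  have ez : (fun _ : Fin 1 => z 0) = z := by
    funext k
    rw [Subsingleton.elim k 0]
  rw [ez]
  constructor
  · intro hw
    exact (wf_realize w _).1 (hz _ (Or.inl ⟨w, hw, rfl⟩))
  · intro hw
    by_contra hne
    have := hz _ (Or.inr ⟨w, hne, rfl⟩)
    rw [Formula.realize_not, wf_realize] at this
    exact this hw

theorem EQ_of_SQF {G H : Type} [Group G] [Group H] (hG : IsExSat G) (hH : IsExSat H) (k : ℕ) :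
    ∀ (n : ℕ) (x : Fin n → G) (y : Fin n → H), SQF x y →
      EQ k (Set.range (fun i => (x i, y i))) := by
  induction k with
  | zero =>
    intro n x y h
    rintro _ ⟨i, rfl⟩ _ ⟨j, rfl⟩
    refine ⟨?_, ?_⟩
    · have h1 := h (FreeGroup.of i * (FreeGroup.of j)⁻¹)
      simp only [map_mul, map_inv, FreeGroup.lift_apply_of, mul_inv_eq_one] at h1
      exact h1
    · rintro _ ⟨l, rfl⟩
      have h1 := h (FreeGroup.of i * FreeGroup.of j * (FreeGroup.of l)⁻¹)
      simp only [map_mul, map_inv, FreeGroup.lift_apply_of, mul_inv_eq_one] at h1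
      exact h1
  | succ k ih =>
    intro n x y h
    have key : ∀ (a : G) (b : H), SQF (Sum.elim x (fun _ : Fin 1 => a))
        (Sum.elim y (fun _ : Fin 1 => b)) → EQ k (insert (a, b) (Set.range
          (fun i => (x i, y i)))) := by
      intro a b hab
      refine (ih (n + 1) _ _ (hab.rn (finSumFinEquiv.symm : Fin (n + 1) ≃ Fin n ⊕ Fin 1))).mono ?_
      rintro p (rfl | ⟨i, rfl⟩)
      · exact ⟨finSumFinEquiv (Sum.inr 0), by simp⟩
      · exact ⟨finSumFinEquiv (Sum.inl i), by simp⟩
    refine ⟨fun a => ?_, fun b => ?_⟩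
    · obtain ⟨b, hb⟩ := h.ext hH a
      exact ⟨b, key a b hb⟩
    · obtain ⟨a, ha⟩ := h.symm.ext hG b
      exact ⟨a, key a b ha.symm⟩

/-- any two existentially saturated groups are back-and-forth equivalent -/
theorem EQ_exSat {G H : Type} [Group G] [Group H] (hG : IsExSat G) (hH : IsExSat H) (k : ℕ) :
    EQ k (∅ : Set (G × H)) := by
  refine (EQ_of_SQF hG hH k 0 Fin.elim0 Fin.elim0 ?_).mono (Set.empty_subset _)
  intro w
  have e : w = 1 := Subsingleton.elim _ _
  rw [e, map_one, map_one]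
  exact iff_of_true rfl rfl

/-- any two infinitely generic groups are back-and-forth equivalent -/
theorem EQ_infGeneric {G H : Type} [Group G] [Group H] (hG : IsInfGeneric G)
    (hH : IsInfGeneric H) (k : ℕ) : EQ k (∅ : Set (G × H)) := by
  obtain ⟨G', iG', i, hi, hG', heG⟩ := hG
  obtain ⟨H', iH', j, hj, hH', heH⟩ := hH
  have h1 : EQ k (∅ : Set (G × G')) := eq_of_sentences (fun φ => by
    have := heG 0 φ Fin.elim0
    have e : (fun l => i ((Fin.elim0 : Fin 0 → G) l)) = Fin.elim0 := Subsingleton.elim _ _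
    rw [e] at this
    exact this.symm) k
  have h2 : EQ k (∅ : Set (H × H')) := eq_of_sentences (fun φ => by
    have := heH 0 φ Fin.elim0
    have e : (fun l => j ((Fin.elim0 : Fin 0 → H) l)) = Fin.elim0 := Subsingleton.elim _ _
    rw [e] at this
    exact this.symm) k
  exact (h1.comp_empty (EQ_exSat hG' hH' k)).comp_empty h2.swap_empty

end Pool.Agent.Zk94.IG
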