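import Pool.Agent.Zk94.IG.Sum

/-! # Codes of finite sums and their moments -/

set_option autoImplicit false
set_option linter.unusedVariables false

namespace Pool.Agent.Zk94.IG

open Function

variable {α β : Type}

theorem DefF.ite {R : ∀ P : PG, (α → P.G) → Prop} {f g : ∀ P : PG, (α → P.G) → P.G}
    (hR : Def R) (hf : DefF f) (hg : DefF g) :
    DefF (fun P x => open Classical in if R P x then f P x else g P x) := by
  classical
  refine DefF.of_graph (R := fun P x y => (R P x ∧ y = f P x) ∨ (¬ R P x ∧ y = g P x)) ?_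
    (fun P x y => ?_)
  · exact ((hR.rn some).and (Def.eq (DefF.var none) (hf.rn some))).or
      ((hR.rn some).not.and (Def.eq (DefF.var none) (hg.rn some)))
  · by_cases h : R P x <;> simp [h]

theorem DefZ.ite {R : ∀ P : PG, (α → P.G) → Prop} {F F' : ∀ P : PG, (α → P.G) → ℤ}
    (hR : Def R) (hf : DefZ F) (hg : DefZ F') :
    DefZ (fun P x => open Classical in if R P x then F P x else F' P x) := by
  classical
  refine DefF.congr (DefF.ite hR hf hg) (fun P x => ?_)
  by_cases h : R P x <;> simp [h]

section

variable {G : Type} [Group G]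

/-- the group elements of a code -/
def cg (t : G) (e : Fin 11 → G) (j : ℤ) : G := sq t (e 0) (e 1) (e 2) j

/-- the real parts of the numerators of the coefficients -/
noncomputable def ca (t : G) (e : Fin 11 → G) (j : ℤ) : ℤ := lg t (sq t (e 3) (e 4) (e 5) j)

/-- the imaginary parts of the numerators of the coefficients -/
noncomputable def cb (t : G) (e : Fin 11 → G) (j : ℤ) : ℤ := lg t (sq t (e 6) (e 7) (e 8) j)

/-- the number of terms -/
noncomputable def ck (t : G) (e : Fin 11 → G) : ℤ := lg t (e 9)

/-- the denominator -/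
noncomputable def cN (t : G) (e : Fin 11 → G) : ℤ := lg t (e 10) * lg t (e 10) + 1

theorem cN_pos (t : G) (e : Fin 11 → G) : 0 < cN t e := by
  unfold cN
  have := mul_self_nonneg (lg t (e 10))
  omega

/-- the numerators of the moments: `τ(λ(h) w) D` -/
noncomputable def num {n : ℕ} (t : G) (x : Fin n → Fin 11 → G) :
    List (Fin n × Bool) → G → ℤ × ℤ
  | [], h => (open Classical in if h = 1 then 1 else 0, 0)
  | (i, true) :: w, h =>
      (bsum (fun j => ca t (x i) j * (num t x w (h * cg t (x i) j)).1 -
          cb t (x i) j * (num t x w (h * cg t (x i) j)).2) (ck t (x i)),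
        bsum (fun j => ca t (x i) j * (num t x w (h * cg t (x i) j)).2 +
          cb t (x i) j * (num t x w (h * cg t (x i) j)).1) (ck t (x i)))
  | (i, false) :: w, h =>
      (bsum (fun j => ca t (x i) j * (num t x w (h * (cg t (x i) j)⁻¹)).1 +
          cb t (x i) j * (num t x w (h * (cg t (x i) j)⁻¹)).2) (ck t (x i)),
        bsum (fun j => ca t (x i) j * (num t x w (h * (cg t (x i) j)⁻¹)).2 -
          cb t (x i) j * (num t x w (h * (cg t (x i) j)⁻¹)).1) (ck t (x i)))

/-- the denominators of the moments -/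
noncomputable def den {n : ℕ} (t : G) (x : Fin n → Fin 11 → G) : List (Fin n × Bool) → ℤ
  | [] => 1
  | p :: w => cN t (x p.1) * den t x w

theorem den_pos {n : ℕ} (t : G) (x : Fin n → Fin 11 → G) (w : List (Fin n × Bool)) :
    0 < den t x w := by
  induction w with
  | nil => exact one_pos
  | cons p w ih => exact mul_pos (cN_pos t _) ih

end

/-- definable families of codes -/
def DefC {n : ℕ} (e : ∀ P : PG, (α → P.G) → Fin n → Fin 11 → P.G) : Prop :=
  ∀ i l, DefF (fun P x => e P x i l)

theorem DefC.cg {n : ℕ} {e : ∀ P : PG, (α → P.G) → Fin n → Fin 11 → P.G} (he : DefC e)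
    (i : Fin n) {J : ∀ P : PG, (α → P.G) → ℤ} (hJ : DefZ J) :
    DefF (fun P x => IG.cg P.t (e P x i) (J P x)) :=
  DefF.sq (he i 0) (he i 1) (he i 2) hJ

theorem DefC.ca {n : ℕ} {e : ∀ P : PG, (α → P.G) → Fin n → Fin 11 → P.G} (he : DefC e)
    (i : Fin n) {J : ∀ P : PG, (α → P.G) → ℤ} (hJ : DefZ J) :
    DefZ (fun P x => IG.ca P.t (e P x i) (J P x)) :=
  DefZ.lg (DefF.sq (he i 3) (he i 4) (he i 5) hJ)

theorem DefC.cb {n : ℕ} {e : ∀ P : PG, (α → P.G) → Fin n → Fin 11 → P.G} (he : DefC e)
    (i : Fin n) {J : ∀ P : PG, (α → P.G) → ℤ} (hJ : DefZ J) :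
    DefZ (fun P x => IG.cb P.t (e P x i) (J P x)) :=
  DefZ.lg (DefF.sq (he i 6) (he i 7) (he i 8) hJ)

theorem DefC.ck {n : ℕ} {e : ∀ P : PG, (α → P.G) → Fin n → Fin 11 → P.G} (he : DefC e)
    (i : Fin n) : DefZ (fun P x => IG.ck P.t (e P x i)) := DefZ.lg (he i 9)

theorem DefC.cN {n : ℕ} {e : ∀ P : PG, (α → P.G) → Fin n → Fin 11 → P.G} (he : DefC e)
    (i : Fin n) : DefZ (fun P x => IG.cN P.t (e P x i)) :=
  ((DefZ.lg (he i 10)).mul (DefZ.lg (he i 10))).add DefZ.one

theorem DefC.den {n : ℕ} {e : ∀ P : PG, (α → P.G) → Fin n → Fin 11 → P.G} (he : DefC e)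
    (w : List (Fin n × Bool)) : DefZ (fun P x => IG.den P.t (e P x) w) := by
  induction w with
  | nil => exact DefZ.one
  | cons p w ih => exact (he.cN p.1).mul ih

/-- the generic codes, with a group element -/
abbrev Cx (n : ℕ) : Type := Option (Fin n × Fin 11)

/-- the codes of an environment -/
abbrev cds {n : ℕ} {G : Type} (x : Cx n → G) : Fin n → Fin 11 → G := fun i l => x (some (i, l))

theorem DefC.num0 {n : ℕ} (w : List (Fin n × Bool)) :
    DefZ (fun P (x : Cx n → P.G) => (IG.num P.t (cds x) w (x none)).1) ∧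
    DefZ (fun P (x : Cx n → P.G) => (IG.num P.t (cds x) w (x none)).2) := by
  induction w with
  | nil => exact ⟨DefZ.ite (Def.eq (DefF.var none) DefF.one) DefZ.one DefZ.zero, DefZ.zero⟩
  | cons p w ih =>
    obtain ⟨i, b⟩ := p
    -- the context with the summation variable
    have he : DefC (α := Option (Cx n)) (n := n)
      (fun P x i l => x (some (some (i, l)))) := fun i l => DefF.var _
    have he0 : DefC (α := Cx n) (n := n)
      (fun P x i l => x (some (i, l))) := fun i l => DefF.var _
    have hj : DefZ (fun P (x : Option (Cx n) → P.G) => IG.lg P.t (x none)) :=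
      DefZ.lg (DefF.var none)
    have hg := he.cg i hj
    have ha := he.ca i hj
    have hb := he.cb i hj
    have hk := he0.ck i
    have h1 : ∀ f : ∀ P : PG, (Option (Cx n) → P.G) → P.G, DefF f →
        DefZ (fun P (x : Option (Cx n) → P.G) =>
          (IG.num P.t (fun i l => x (some (some (i, l)))) w (f P x)).1) := by
      intro f hf
      exact DefZ.comp ih.1 (f := fun o P x => o.elim (f P x) (fun q => x (some (some q))))
        (fun o => by
          cases o with
          | none => exact hf
          | some q => exact DefF.var _)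
    have h2 : ∀ f : ∀ P : PG, (Option (Cx n) → P.G) → P.G, DefF f →
        DefZ (fun P (x : Option (Cx n) → P.G) =>
          (IG.num P.t (fun i l => x (some (some (i, l)))) w (f P x)).2) := by
      intro f hf
      exact DefZ.comp ih.2 (f := fun o P x => o.elim (f P x) (fun q => x (some (some q))))
        (fun o => by
          cases o with
          | none => exact hf
          | some q => exact DefF.var _)
    cases b with
    | true =>
      have hf : DefF (fun P (x : Option (Cx n) → P.G) => x (some none) *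
        IG.cg P.t (fun l => x (some (some (i, l)))) (IG.lg P.t (x none))) :=
        (DefF.var _).mul hg
      constructor
      · exact DefZ.bsum (F := fun P x j => IG.ca P.t (cds x i) j *
          (IG.num P.t (cds x) w (x none * IG.cg P.t (cds x i) j)).1 - IG.cb P.t (cds x i) j *
          (IG.num P.t (cds x) w (x none * IG.cg P.t (cds x i) j)).2)
          ((ha.mul (h1 _ hf)).sub (hb.mul (h2 _ hf))) hk
      · exact DefZ.bsum (F := fun P x j => IG.ca P.t (cds x i) j *
          (IG.num P.t (cds x) w (x none * IG.cg P.t (cds x i) j)).2 + IG.cb P.t (cds x i) j *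
          (IG.num P.t (cds x) w (x none * IG.cg P.t (cds x i) j)).1)
          ((ha.mul (h2 _ hf)).add (hb.mul (h1 _ hf))) hk
    | false =>
      have hf : DefF (fun P (x : Option (Cx n) → P.G) => x (some none) *
        (IG.cg P.t (fun l => x (some (some (i, l)))) (IG.lg P.t (x none)))⁻¹) :=
        (DefF.var _).mul hg.inv
      constructor
      · exact DefZ.bsum (F := fun P x j => IG.ca P.t (cds x i) j *
          (IG.num P.t (cds x) w (x none * (IG.cg P.t (cds x i) j)⁻¹)).1 + IG.cb P.t (cds x i) j *
          (IG.num P.t (cds x) w (x none * (IG.cg P.t (cds x i) j)⁻¹)).2)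
          ((ha.mul (h1 _ hf)).add (hb.mul (h2 _ hf))) hk
      · exact DefZ.bsum (F := fun P x j => IG.ca P.t (cds x i) j *
          (IG.num P.t (cds x) w (x none * (IG.cg P.t (cds x i) j)⁻¹)).2 - IG.cb P.t (cds x i) j *
          (IG.num P.t (cds x) w (x none * (IG.cg P.t (cds x i) j)⁻¹)).1)
          ((ha.mul (h2 _ hf)).sub (hb.mul (h1 _ hf))) hk

theorem DefC.num {n : ℕ} {e : ∀ P : PG, (α → P.G) → Fin n → Fin 11 → P.G} (he : DefC e)
    (w : List (Fin n × Bool)) :
    DefZ (fun P x => (IG.num P.t (e P x) w 1).1) ∧ DefZ (fun P x => (IG.num P.t (e P x) w 1).2) := by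
  have key : ∀ o : Cx n, DefF (fun P (x : α → P.G) => (o.elim 1 (fun q => e P x q.1 q.2) : P.G)) := by
    intro o
    cases o with
    | none => exact DefF.one
    | some q => exact he q.1 q.2
  exact ⟨DefZ.comp (DefC.num0 w).1 key, DefZ.comp (DefC.num0 w).2 key⟩

end Pool.Agent.Zk94.IG
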