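import Pool.Agent.Zk94.IG.Dens

/-! # The values of formulas depend continuously on the back-and-forth type of the codes -/

set_option autoImplicit false
set_option linter.unusedVariables false

namespace Pool.Agent.Zk94.IG

open Function
open Pool.Agent.H504R3 (TVN)
open Pool.Agent.H504R3.S
open Pool.Agent.R970.SI
open Pool.Agent.R283.GV
open Pool.Agent.Helper278

theorem EQ.ext {G H : Type} [Group G] [Group H] {k : ℕ} (m : ℕ) : ∀ {L : Set (G × H)},
    EQ (k + m) L → ∀ a : Fin m → G, ∃ b : Fin m → H,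
      EQ k (L ∪ Set.range (fun i => (a i, b i))) := by
  induction m with
  | zero =>
    intro L h a
    refine ⟨Fin.elim0, h.mono ?_⟩
    rintro p (hp | ⟨i, rfl⟩)
    · exact hp
    · exact i.elim0
  | succ m ih =>
    intro L h a
    obtain ⟨b0, hb0⟩ := (show EQ ((k + m) + 1) L from h).1 (a 0)
    obtain ⟨b, hb⟩ := ih hb0 (fun i => a i.succ)
    refine ⟨Fin.cons b0 b, hb.mono ?_⟩
    rintro p (hp | ⟨i, rfl⟩)
    · exact Or.inl (Or.inr hp)
    · refine Fin.cases ?_ (fun i => ?_) i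
      · exact Or.inl (Or.inl rfl)
      · exact Or.inr ⟨i, rfl⟩

theorem Def.allC {α : Type} {R : ∀ P : PG, (α → P.G) → (Fin 11 → P.G) → Prop}
    (h : Def (α := α ⊕ Fin 11) (fun P x => R P (fun i => x (Sum.inl i))
      (fun l => x (Sum.inr l)))) : Def (fun P x => ∀ f, R P x f) := by
  obtain ⟨k, hk⟩ := h
  refine ⟨k + 11, fun P Q L x y h hL => ⟨?_, ?_⟩⟩
  · intro hx f
    obtain ⟨a, ha⟩ := EQ.ext 11 hL.swap f
    have h1 := ha.swap
    refine (hk P Q _ (Sum.elim x a) (Sum.elim y f) ⟨Or.inl h.t, ?_⟩ h1).1 (hx a)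
    rintro (i | i)
    · exact Or.inl (h.x i)
    · exact Or.inr ⟨i, rfl⟩
  · intro hy f
    obtain ⟨b, hb⟩ := EQ.ext 11 hL f
    refine (hk P Q _ (Sum.elim x f) (Sum.elim y b) ⟨Or.inl h.t, ?_⟩ hb).2 (hy b)
    rintro (i | i)
    · exact Or.inl (h.x i)
    · exact Or.inr ⟨i, rfl⟩

theorem wv_append (T : TVN) {n : ℕ} (X : Fin n → T.E) (w w' : List (Fin n × Bool)) :
    wv T X (w ++ w') = wv T X w * wv T X w' := by
  induction w with
  | nil => exact (one_mul _).symm
  | cons p w ih =>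
    obtain ⟨i, b⟩ := p
    show (if b then X i else star (X i)) * wv T X (w ++ w') = _
    rw [ih, ← mul_assoc]
    rfl

/-- the adjoint of a word -/
def wadj {n : ℕ} (w : List (Fin n × Bool)) : List (Fin n × Bool) :=
  (w.map (fun p => (p.1, !p.2))).reverse

theorem wv_adj (T : TVN) {n : ℕ} (X : Fin n → T.E) (w : List (Fin n × Bool)) :
    wv T X (wadj w) = star (wv T X w) := by
  induction w with
  | nil => exact (star_one T.E).symm
  | cons p w ih =>
    obtain ⟨i, b⟩ := p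
    have e : wadj ((i, b) :: w) = wadj w ++ [(i, !b)] := by
      simp [wadj]
    rw [e, wv_append, ih]
    show _ * ((if !b then X i else star (X i)) * 1) = star ((if b then X i else star (X i)) *
      wv T X w)
    rw [star_mul, mul_one]
    cases b <;> simp

/-- the value of a combination of words -/
noncomputable def pv (T : TVN) {n : ℕ} (X : Fin n → T.E) (l : List (ℂ × List (Fin n × Bool))) :
    T.E := (l.map (fun p => p.1 • wv T X p.2)).sum

theorem pv_nil (T : TVN) {n : ℕ} (X : Fin n → T.E) : pv T X [] = 0 := rfl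

theorem pv_cons (T : TVN) {n : ℕ} (X : Fin n → T.E) (p : ℂ × List (Fin n × Bool))
    (l : List (ℂ × List (Fin n × Bool))) : pv T X (p :: l) = p.1 • wv T X p.2 + pv T X l := by
  simp [pv]

theorem pv_append (T : TVN) {n : ℕ} (X : Fin n → T.E) (l l' : List (ℂ × List (Fin n × Bool))) :
    pv T X (l ++ l') = pv T X l + pv T X l' := by
  simp [pv]

theorem pv_smul (T : TVN) {n : ℕ} (X : Fin n → T.E) (c : ℂ) (l : List (ℂ × List (Fin n × Bool))) :
    pv T X (l.map (fun p => (c * p.1, p.2))) = c • pv T X l := by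
  induction l with
  | nil => simp [pv]
  | cons p l ih =>
    rw [List.map_cons, pv_cons, pv_cons, ih, smul_add, mul_smul]

theorem pv_star (T : TVN) {n : ℕ} (X : Fin n → T.E) (l : List (ℂ × List (Fin n × Bool))) :
    pv T X (l.map (fun p => (star p.1, wadj p.2))) = star (pv T X l) := by
  induction l with
  | nil => simp [pv]
  | cons p l ih =>
    rw [List.map_cons, pv_cons, pv_cons, ih, star_add, star_smul, wv_adj]

theorem pv_lmul (T : TVN) {n : ℕ} (X : Fin n → T.E) (q : ℂ × List (Fin n × Bool))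
    (l : List (ℂ × List (Fin n × Bool))) :
    pv T X (l.map (fun p => (q.1 * p.1, q.2 ++ p.2))) = (q.1 • wv T X q.2) * pv T X l := by
  induction l with
  | nil => simp [pv]
  | cons p l ih =>
    rw [List.map_cons, pv_cons, pv_cons, ih, mul_add, wv_append, smul_mul_smul_comm]

theorem exists_pmul {n : ℕ} (l l' : List (ℂ × List (Fin n × Bool))) :
    ∃ m : List (ℂ × List (Fin n × Bool)), ∀ (T : TVN) (X : Fin n → T.E),
      pv T X m = pv T X l * pv T X l' := by
  induction l with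
  | nil => exact ⟨[], fun T X => by rw [pv_nil, zero_mul]⟩
  | cons q l ih =>
    obtain ⟨m, hm⟩ := ih
    refine ⟨l'.map (fun p => (q.1 * p.1, q.2 ++ p.2)) ++ m, fun T X => ?_⟩
    rw [pv_append, pv_lmul, hm, pv_cons, add_mul]

/-- every term is a combination of words -/
theorem exists_pv {n : ℕ} (s : Tm (Fin n)) : ∃ l : List (ℂ × List (Fin n × Bool)),
    ∀ (T : TVN) (X : Fin n → T.E), tval T X s = pv T X l := by
  induction s with
  | var i =>
    refine ⟨[(1, [(i, true)])], fun T X => ?_⟩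
    rw [pv_cons, pv_nil, add_zero, one_smul]
    show X i = X i * 1
    rw [mul_one]
  | one =>
    refine ⟨[(1, [])], fun T X => ?_⟩
    rw [pv_cons, pv_nil, add_zero, one_smul]
    rfl
  | add s t hs ht =>
    obtain ⟨l, hl⟩ := hs
    obtain ⟨l', hl'⟩ := ht
    refine ⟨l ++ l', fun T X => ?_⟩
    rw [pv_append, ← hl, ← hl']
    rfl
  | mul s t hs ht =>
    obtain ⟨l, hl⟩ := hs
    obtain ⟨l', hl'⟩ := ht
    obtain ⟨m, hm⟩ := exists_pmul l l'
    refine ⟨m, fun T X => ?_⟩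
    rw [hm, ← hl, ← hl']
    rfl
  | adj s hs =>
    obtain ⟨l, hl⟩ := hs
    refine ⟨l.map (fun p => (star p.1, wadj p.2)), fun T X => ?_⟩
    rw [pv_star, ← hl]
    rfl
  | scal c s hs =>
    obtain ⟨l, hl⟩ := hs
    refine ⟨l.map (fun p => (c * p.1, p.2)), fun T X => ?_⟩
    rw [pv_smul, ← hl]
    rfl

theorem wv_bound {n : ℕ} (w : List (Fin n × Bool)) {R : ℝ} (hR : 0 ≤ R) : ∃ C : ℝ, 0 ≤ C ∧
    ∀ (T : TVN) (X : Fin n → T.E), (∀ i, T.opNorm (X i) ≤ R) → T.opNorm (wv T X w) ≤ C := by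
  induction w with
  | nil => exact ⟨1, zero_le_one, fun T X _ => op_one T⟩
  | cons p w ih =>
    obtain ⟨C, hC, h⟩ := ih
    obtain ⟨i, b⟩ := p
    refine ⟨R * C, by positivity, fun T X hX => ?_⟩
    refine (op_mul T _ _).trans (mul_le_mul ?_ (h T X hX) (op_nonneg T _) hR)
    cases b with
    | true => exact hX i
    | false => exact (op_star T _).le.trans (hX i)

/-- the pairs of codes in `L` -/
structure AdmC {n : ℕ} (P Q : PG) (L : Set (P.G × Q.G)) (x : Fin n → Fin 11 → P.G)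
    (y : Fin n → Fin 11 → Q.G) : Prop where
  t : (P.t, Q.t) ∈ L
  x : ∀ i l, (x i l, y i l) ∈ L

theorem AdmC.mono {n : ℕ} {P Q : PG} {L L' : Set (P.G × Q.G)} {x : Fin n → Fin 11 → P.G}
    {y : Fin n → Fin 11 → Q.G} (h : AdmC P Q L x y) (hL : L ⊆ L') : AdmC P Q L' x y :=
  ⟨hL h.t, fun i l => hL (h.x i l)⟩

theorem AdmC.cons {n : ℕ} {P Q : PG} {L : Set (P.G × Q.G)} {x : Fin n → Fin 11 → P.G}
    {y : Fin n → Fin 11 → Q.G} (h : AdmC P Q L x y) (a : Fin 11 → P.G) (b : Fin 11 → Q.G) :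
    AdmC (n := n + 1) P Q (L ∪ Set.range (fun i => (a i, b i))) (Fin.cons a x) (Fin.cons b y) := by
  refine ⟨Or.inl h.t, fun i l => ?_⟩
  refine Fin.cases ?_ (fun i => ?_) i
  · exact Or.inr ⟨l, rfl⟩
  · exact Or.inl (h.x i l)

/-- a relation of codes -/
theorem Def.codes {n : ℕ} {R : ∀ P : PG, (Fin n → Fin 11 → P.G) → Prop}
    (h : Def (α := Fin n × Fin 11) (fun P x => R P (fun i l => x (i, l)))) :
    ∃ k, ∀ (P Q : PG) (L : Set (P.G × Q.G)) (x : Fin n → Fin 11 → P.G)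
      (y : Fin n → Fin 11 → Q.G), AdmC P Q L x y → EQ k L → (R P x ↔ R Q y) := by
  obtain ⟨k, hk⟩ := h
  exact ⟨k, fun P Q L x y h hL => hk P Q L (fun p => x p.1 p.2) (fun p => y p.1 p.2)
    ⟨h.t, fun p => h.x p.1 p.2⟩ hL⟩

/-- continuity in the code -/
def CC {n : ℕ} (dom : ∀ P : PG, (Fin n → Fin 11 → P.G) → Prop)
    (f : ∀ P : PG, (Fin n → Fin 11 → P.G) → ℝ) : Prop :=
  ∀ ε : ℝ, 0 < ε → ∃ k, ∀ (P Q : PG) (L : Set (P.G × Q.G)) (x : Fin n → Fin 11 → P.G)
    (y : Fin n → Fin 11 → Q.G), AdmC P Q L x y → EQ k L → dom P x → dom Q y →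
    |f P x - f Q y| ≤ ε

theorem grid {z z' : ℝ} {M : ℤ} (h : |z| ≤ M) (h' : |z'| ≤ M)
    (hD : ∀ l : ℤ, |l| ≤ M → ((l : ℝ) < z ↔ (l : ℝ) < z')) : |z - z'| ≤ 1 := by
  have key : ∀ z z' : ℝ, |z| ≤ M → |z'| ≤ M → (∀ l : ℤ, |l| ≤ M → ((l : ℝ) < z ↔ (l : ℝ) < z')) →
      z' ≤ z + 1 := by
    intro z z' h h' hD
    by_contra hcon
    push Not at hcon
    have h1 := Int.le_ceil z
    have h2 := Int.ceil_lt_add_one z
    rw [abs_le] at h h'
    have h3 : |⌈z⌉| ≤ M := by
      rw [abs_le]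
      constructor
      · have : (-(M : ℝ)) ≤ (⌈z⌉ : ℝ) := h.1.trans h1
        exact_mod_cast this
      · have : (⌈z⌉ : ℝ) ≤ (M : ℝ) := by linarith
        exact_mod_cast this
    have h4 := (hD ⌈z⌉ h3).2 (by linarith)
    linarith
  have h1 := key z z' h h' hD
  have h2 := key z' z h' h (fun l hl => (hD l hl).symm)
  rw [abs_le]
  constructor <;> linarith

theorem CC.grid {n : ℕ} {dom : ∀ P : PG, (Fin n → Fin 11 → P.G) → Prop}
    {f : ∀ P : PG, (Fin n → Fin 11 → P.G) → ℝ} {C : ℝ} (hC : ∀ P x, dom P x → |f P x| ≤ C)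
    (hD : ∀ (l m : ℤ), 0 < m → Def (α := Fin n × Fin 11) (fun P x => (l : ℝ) <
      m * f P (fun i l => x (i, l)))) : CC dom f := by
  intro ε hε
  obtain ⟨m, hm⟩ : ∃ m : ℕ, 1 / ε ≤ m := exists_nat_ge _
  have hm1 : (0 : ℝ) < ((m : ℝ) + 1) := by positivity
  obtain ⟨M, hM⟩ : ∃ M : ℕ, ((m : ℝ) + 1) * |C| ≤ M := exists_nat_ge _
  choose k hk using fun l : ℤ => Def.codes (R := fun P x => (l : ℝ) < ((m + 1 : ℕ) : ℤ) * f P x)
    (hD l ((m + 1 : ℕ) : ℤ) (by positivity))
  refine ⟨(Finset.Icc (-(M : ℤ)) M).sup k, fun P Q L x y h hL hx hy => ?_⟩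
  have hb : ∀ (P : PG) (x : Fin n → Fin 11 → P.G), dom P x →
      |((m : ℝ) + 1) * f P x| ≤ ((M : ℤ) : ℝ) := by
    intro P x hx
    rw [abs_mul, abs_of_pos hm1]
    have := (hC P x hx).trans (le_abs_self C)
    push_cast
    exact (mul_le_mul_of_nonneg_left this hm1.le).trans hM
  have h1 := IG.grid (hb P x hx) (hb Q y hy) (fun l hl => by
    have h2 : k l ≤ (Finset.Icc (-(M : ℤ)) M).sup k :=
      Finset.le_sup (Finset.mem_Icc.2 (abs_le.1 hl))
    have h3 := hk l P Q L x y h (hL.le h2)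
    push_cast at h3
    exact h3)
  rw [← mul_sub, abs_mul, abs_of_pos hm1] at h1
  have h2 : |f P x - f Q y| ≤ 1 / ((m : ℝ) + 1) := by
    rw [le_div_iff₀ hm1, mul_comm]
    exact h1
  refine h2.trans ?_
  rw [div_le_iff₀ hε] at hm
  rw [div_le_iff₀ hm1]
  nlinarith

/-- the codes with operator norm at most `R` -/
def domR {n : ℕ} (R : ℝ) (P : PG) (x : Fin n → Fin 11 → P.G) : Prop :=
  ∀ i, (tvn P.G).opNorm (val P.t (x i)) ≤ R

/-- the elements with the codes `x` -/
noncomputable abbrev vals {n : ℕ} (P : PG) (x : Fin n → Fin 11 → P.G) : Fin n → (tvn P.G).E :=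
  fun i => val P.t (x i)

theorem tau_re {n : ℕ} (P : PG) (x : Fin n → Fin 11 → P.G) (w : List (Fin n × Bool)) :
    ((tvn P.G).τ (wv (tvn P.G) (vals P x) w)).re =
      ((num P.t x w 1).1 : ℝ) / (den P.t x w : ℝ) := by
  rw [mom']
  have : (((num P.t x w 1).1 : ℂ) + ((num P.t x w 1).2 : ℂ) * Complex.I) / (den P.t x w : ℂ) =
      ((((num P.t x w 1).1 : ℝ) / (den P.t x w : ℝ) : ℝ) : ℂ) +
      ((((num P.t x w 1).2 : ℝ) / (den P.t x w : ℝ) : ℝ) : ℂ) * Complex.I := by
    push_cast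
    ring
  rw [this, Complex.add_re, Complex.ofReal_re, Complex.re_ofReal_mul, Complex.I_re, mul_zero,
    add_zero]

theorem tau_im {n : ℕ} (P : PG) (x : Fin n → Fin 11 → P.G) (w : List (Fin n × Bool)) :
    ((tvn P.G).τ (wv (tvn P.G) (vals P x) w)).im =
      ((num P.t x w 1).2 : ℝ) / (den P.t x w : ℝ) := by
  rw [mom']
  have : (((num P.t x w 1).1 : ℂ) + ((num P.t x w 1).2 : ℂ) * Complex.I) / (den P.t x w : ℂ) =
      ((((num P.t x w 1).1 : ℝ) / (den P.t x w : ℝ) : ℝ) : ℂ) +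
      ((((num P.t x w 1).2 : ℝ) / (den P.t x w : ℝ) : ℝ) : ℂ) * Complex.I := by
    push_cast
    ring
  rw [this, Complex.add_im, Complex.ofReal_im, Complex.im_ofReal_mul, Complex.I_im, mul_one,
    zero_add]

theorem frac_lt {a D l m : ℤ} (hD : 0 < D) : ((l : ℝ) < m * ((a : ℝ) / D)) ↔ l * D < m * a := by
  have hD' : (0 : ℝ) < D := by exact_mod_cast hD
  rw [mul_div_assoc', lt_div_iff₀ hD']
  constructor
  · intro h
    exact_mod_cast h
  · intro h
    exact_mod_cast h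

theorem Def.num_lt {n : ℕ} (w : List (Fin n × Bool)) (l m : ℤ) :
    Def (α := Fin n × Fin 11) (fun P x => l * den P.t (fun i l => x (i, l)) w <
      m * (num P.t (fun i l => x (i, l)) w 1).1) ∧
    Def (α := Fin n × Fin 11) (fun P x => l * den P.t (fun i l => x (i, l)) w <
      m * (num P.t (fun i l => x (i, l)) w 1).2) := by
  have he : DefC (α := Fin n × Fin 11) (n := n) (fun P x i l => x (i, l)) :=
    fun i l => DefF.var _
  exact ⟨Def.ltZ ((DefZ.const l).mul (he.den w)) ((DefZ.const m).mul (he.num w).1),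
    Def.ltZ ((DefZ.const l).mul (he.den w)) ((DefZ.const m).mul (he.num w).2)⟩

theorem CC.mom {n : ℕ} (w : List (Fin n × Bool)) {R : ℝ} (hR : 0 ≤ R) :
    CC (n := n) (domR R) (fun P x => ((tvn P.G).τ (wv (tvn P.G) (vals P x) w)).re) ∧
    CC (n := n) (domR R) (fun P x => ((tvn P.G).τ (wv (tvn P.G) (vals P x) w)).im) := by
  obtain ⟨C, hC, hb⟩ := wv_bound w hR
  constructor
  · refine CC.grid (C := C) (fun P x hx => ?_) (fun l m hm => ?_)
    · exact (Complex.abs_re_le_norm _).trans ((tau_le _ _).trans ((norm2_le_op _ _).trans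
        (hb _ _ hx)))
    · refine (Def.num_lt w l m).1.congr (fun P x => ?_)
      rw [tau_re]
      exact frac_lt (den_pos _ _ _)
  · refine CC.grid (C := C) (fun P x hx => ?_) (fun l m hm => ?_)
    · exact (Complex.abs_im_le_norm _).trans ((tau_le _ _).trans ((norm2_le_op _ _).trans
        (hb _ _ hx)))
    · refine (Def.num_lt w l m).2.congr (fun P x => ?_)
      rw [tau_im]
      exact frac_lt (den_pos _ _ _)

theorem CC.add {n : ℕ} {dom : ∀ P : PG, (Fin n → Fin 11 → P.G) → Prop}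
    {f g : ∀ P : PG, (Fin n → Fin 11 → P.G) → ℝ} (hf : CC dom f) (hg : CC dom g) :
    CC dom (fun P x => f P x + g P x) := by
  intro ε hε
  obtain ⟨k, hk⟩ := hf (ε / 2) (by positivity)
  obtain ⟨l, hl⟩ := hg (ε / 2) (by positivity)
  refine ⟨max k l, fun P Q L x y h hL hx hy => ?_⟩
  have h1 := hk P Q L x y h (hL.le (le_max_left _ _)) hx hy
  have h2 := hl P Q L x y h (hL.le (le_max_right _ _)) hx hy
  have e : f P x + g P x - (f Q y + g Q y) = (f P x - f Q y) + (g P x - g Q y) := by ring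
  rw [e]
  refine (abs_add_le _ _).trans ?_
  linarith

theorem CC.const {n : ℕ} {dom : ∀ P : PG, (Fin n → Fin 11 → P.G) → Prop} (c : ℝ) :
    CC dom (fun P (x : Fin n → Fin 11 → P.G) => c) := by
  intro ε hε
  refine ⟨0, fun P Q L x y h hL hx hy => ?_⟩
  rw [sub_self, abs_zero]
  exact hε.le

theorem CC.smul {n : ℕ} {dom : ∀ P : PG, (Fin n → Fin 11 → P.G) → Prop}
    {f : ∀ P : PG, (Fin n → Fin 11 → P.G) → ℝ} (hf : CC dom f) (c : ℝ) :
    CC dom (fun P x => c * f P x) := by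
  intro ε hε
  obtain ⟨k, hk⟩ := hf (ε / (|c| + 1)) (by positivity)
  refine ⟨k, fun P Q L x y h hL hx hy => ?_⟩
  have h1 := hk P Q L x y h hL hx hy
  rw [← mul_sub, abs_mul]
  rw [le_div_iff₀ (by positivity)] at h1
  nlinarith [abs_nonneg (f P x - f Q y), abs_nonneg c]

theorem CC.congr {n : ℕ} {dom : ∀ P : PG, (Fin n → Fin 11 → P.G) → Prop}
    {f g : ∀ P : PG, (Fin n → Fin 11 → P.G) → ℝ} (hf : CC dom f) (h : ∀ P x, g P x = f P x) :
    CC dom g := by
  have : g = f := by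
    funext P x
    exact h P x
  rwa [this]

theorem CC.pv {n : ℕ} (l : List (ℂ × List (Fin n × Bool))) {R : ℝ} (hR : 0 ≤ R) :
    CC (n := n) (domR R) (fun P x => ((tvn P.G).τ (pv (tvn P.G) (vals P x) l)).re) ∧
    CC (n := n) (domR R) (fun P x => ((tvn P.G).τ (pv (tvn P.G) (vals P x) l)).im) := by
  induction l with
  | nil =>
    constructor
    · refine (CC.const 0).congr (fun P x => ?_)
      rw [pv_nil, map_zero, Complex.zero_re]
    · refine (CC.const 0).congr (fun P x => ?_)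
      rw [pv_nil, map_zero, Complex.zero_im]
  | cons p l ih =>
    have hm := CC.mom (n := n) p.2 hR
    constructor
    · refine (((hm.1.smul p.1.re).add (hm.2.smul (-p.1.im))).add ih.1).congr (fun P x => ?_)
      rw [pv_cons, map_add, map_smul, Complex.add_re, smul_eq_mul, Complex.mul_re]
      ring
    · refine (((hm.2.smul p.1.re).add (hm.1.smul p.1.im)).add ih.2).congr (fun P x => ?_)
      rw [pv_cons, map_add, map_smul, Complex.add_im, smul_eq_mul, Complex.mul_im]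

theorem CC.tau {n : ℕ} (s : Tm (Fin n)) {R : ℝ} (hR : 0 ≤ R) :
    CC (n := n) (domR R) (fun P x => ((tvn P.G).τ (tval (tvn P.G) (vals P x) s)).re) ∧
    CC (n := n) (domR R) (fun P x => ((tvn P.G).τ (tval (tvn P.G) (vals P x) s)).im) := by
  obtain ⟨l, hl⟩ := exists_pv s
  have h := CC.pv (n := n) l hR
  exact ⟨h.1.congr (fun P x => by rw [hl]), h.2.congr (fun P x => by rw [hl])⟩

/-- continuous functions of continuous functions -/
theorem CC.conn {n k : ℕ} {dom : ∀ P : PG, (Fin n → Fin 11 → P.G) → Prop} (u : C(Fin k → ℝ, ℝ))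
    {f : Fin k → ∀ P : PG, (Fin n → Fin 11 → P.G) → ℝ} (hf : ∀ i, CC dom (f i)) (C : Fin k → ℝ)
    (hC : ∀ i P x, dom P x → |f i P x| ≤ C i) : CC dom (fun P x => u (fun i => f i P x)) := by
  intro ε hε
  have hcomp : IsCompact (Set.pi Set.univ fun i : Fin k => Set.Icc (-(C i)) (C i)) :=
    isCompact_univ_pi fun i => isCompact_Icc
  have huc := hcomp.uniformContinuousOn_of_continuous (f := u) u.continuous.continuousOn
  rw [Metric.uniformContinuousOn_iff_le] at huc
  obtain ⟨η, hη, huc⟩ := huc ε hε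
  choose l hl using fun i => hf i η hη
  refine ⟨Finset.univ.sup l, fun P Q L x y h hL hx hy => ?_⟩
  have h1 := huc (fun i => f i P x) (fun i _ => abs_le.1 (hC i P x hx)) (fun i => f i Q y)
    (fun i _ => abs_le.1 (hC i Q y hy)) (by
      rw [dist_pi_le_iff hη.le]
      intro i
      rw [Real.dist_eq]
      exact hl i P Q L x y h (hL.le (Finset.le_sup (Finset.mem_univ i))) hx hy)
  rwa [Real.dist_eq] at h1

theorem CC.sqrt {n : ℕ} {dom : ∀ P : PG, (Fin n → Fin 11 → P.G) → Prop}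
    {f : ∀ P : PG, (Fin n → Fin 11 → P.G) → ℝ} (hf : CC dom f) {C : ℝ}
    (hC : ∀ P x, dom P x → |f P x| ≤ C) : CC dom (fun P x => Real.sqrt (f P x)) := by
  have h := CC.conn (k := 1) ⟨fun v : Fin 1 → ℝ => Real.sqrt (v 0), by fun_prop⟩
    (f := fun _ => f) (fun _ => hf) (fun _ => C) (fun _ => hC)
  exact h

/-- the norm bound is definable -/
theorem Def.normle (r : ℕ) : ∃ k, ∀ (P Q : PG) (L : Set (P.G × Q.G)) (e : Fin 11 → P.G)
    (f : Fin 11 → Q.G), (P.t, Q.t) ∈ L → (∀ l, (e l, f l) ∈ L) → EQ k L →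
    ((tvn P.G).opNorm (val P.t e) ≤ r ↔ (tvn Q.G).opNorm (val Q.t f) ≤ r) := by
  let w4 : List (Fin 2 × Bool) := [(1, false), (0, false), (0, true), (1, true)]
  let w2 : List (Fin 2 × Bool) := [(1, false), (1, true)]
  have hD : Def (α := Fin 11) (fun P e => ∀ f : Fin 11 → P.G,
      (num P.t ![e, f] w4 1).1 * den P.t ![e, f] w2 ≤
        ((r * r : ℕ) : ℤ) * ((num P.t ![e, f] w2 1).1 * den P.t ![e, f] w4)) := by
    refine Def.allC ?_
    have he : DefC (α := Fin 11 ⊕ Fin 11) (n := 2) (fun P x =>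
        ![fun l => x (Sum.inl l), fun l => x (Sum.inr l)]) := by
      intro i l
      fin_cases i
      · exact DefF.var _
      · exact DefF.var _
    exact Def.leZ ((he.num w4).1.mul (he.den w2)) ((DefZ.const _).mul ((he.num w2).1.mul
      (he.den w4)))
  have key : ∀ (P : PG) (e : Fin 11 → P.G), (tvn P.G).opNorm (val P.t e) ≤ r ↔
      ∀ f : Fin 11 → P.G, (num P.t ![e, f] w4 1).1 * den P.t ![e, f] w2 ≤
        ((r * r : ℕ) : ℤ) * ((num P.t ![e, f] w2 1).1 * den P.t ![e, f] w4) := by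
    intro P e
    rw [op_le_iff P.ec P.inf _ (Nat.cast_nonneg r)]
    refine forall_congr' fun f => ?_
    have h4 : ((tvn P.G).norm2 (val P.t e * val P.t f)) ^ 2 =
        ((num P.t ![e, f] w4 1).1 : ℝ) / (den P.t ![e, f] w4 : ℝ) := by
      rw [← tau_re]
      unfold TVN.norm2
      rw [Real.sq_sqrt]
      · congr 2
        show star (val P.t e * val P.t f) * (val P.t e * val P.t f) =
          star (val P.t f) * (star (val P.t e) * (val P.t e * (val P.t f * 1)))
        rw [star_mul, mul_one, mul_assoc]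
      · exact (tvn P.G).trAlg.re_nonneg _
    have h2 : ((tvn P.G).norm2 (val P.t f)) ^ 2 =
        ((num P.t ![e, f] w2 1).1 : ℝ) / (den P.t ![e, f] w2 : ℝ) := by
      rw [← tau_re]
      unfold TVN.norm2
      rw [Real.sq_sqrt]
      · congr 2
      · exact (tvn P.G).trAlg.re_nonneg _
    have hd4 : (0 : ℝ) < (den P.t ![e, f] w4 : ℝ) := by exact_mod_cast den_pos _ _ _
    have hd2 : (0 : ℝ) < (den P.t ![e, f] w2 : ℝ) := by exact_mod_cast den_pos _ _ _
    have h5 : (tvn P.G).norm2 (val P.t e * val P.t f) ≤ r * (tvn P.G).norm2 (val P.t f) ↔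
        ((tvn P.G).norm2 (val P.t e * val P.t f)) ^ 2 ≤
          (r : ℝ) ^ 2 * ((tvn P.G).norm2 (val P.t f)) ^ 2 := by
      rw [← mul_pow]
      exact (sq_le_sq₀ (norm2_nonneg _ _) (mul_nonneg (Nat.cast_nonneg r)
        (norm2_nonneg _ _))).symm
    rw [h5, h4, h2, mul_div_assoc', div_le_div_iff₀ hd4 hd2]
    constructor
    · intro h
      have : (((num P.t ![e, f] w4 1).1 * den P.t ![e, f] w2 : ℤ) : ℝ) ≤
          ((((r * r : ℕ) : ℤ) * ((num P.t ![e, f] w2 1).1 * den P.t ![e, f] w4) : ℤ) : ℝ) := by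
        push_cast
        nlinarith
      exact_mod_cast this
    · intro h
      have : (((num P.t ![e, f] w4 1).1 * den P.t ![e, f] w2 : ℤ) : ℝ) ≤
          ((((r * r : ℕ) : ℤ) * ((num P.t ![e, f] w2 1).1 * den P.t ![e, f] w4) : ℤ) : ℝ) := by
        exact_mod_cast h
      push_cast at this
      nlinarith
  obtain ⟨k, hk⟩ := hD
  refine ⟨k, fun P Q L e f ht hef hL => ?_⟩
  rw [key, key]
  exact hk P Q L e f ⟨ht, hef⟩ hL

end Pool.Agent.Zk94.IG
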