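import Pool.Agent.Zk94.IG.Val

/-! # Density of the elements with codes in the balls of `L(G)` -/

set_option autoImplicit false
set_option linter.unusedVariables false

namespace Pool.Agent.Zk94.IG

open Function
open Pool.Agent.H667R2.FG (Ell Op permOp lam rho delta LG EltG tau)
open Pool.Agent.H667R2.FG.TL2 (delta_apply norm_delta inner_delta lam_delta lam_mul lam_one
  star_lam lam_mem)
open Pool.Agent.H504R3 (TVN)
open Pool.Agent.H504R3.S
open Pool.Agent.R970.SI
open Pool.Agent.R283.GV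
open Pool.Agent.Helper278
open Pool.Agent.Helper278.RG (TwoNorm)

variable {G : Type} [Group G]

theorem exists_code (hG : EC G) {t : G} (ht : ¬ IsOfFinOrder t) (m : ℕ) (g : ℕ → G) (A B : ℕ → ℤ)
    (l : ℤ) : ∃ e : Fin 11 → G, val t e = (((l * l + 1 : ℤ) : ℂ)⁻¹) •
      ∑ j ∈ Finset.range m, ((A j : ℂ) + (B j : ℂ) * Complex.I) • lamE (g j) := by
  obtain ⟨c0, b0, s0, h0⟩ := hG.seq ht m (fun j => g j.toNat)
  obtain ⟨c1, b1, s1, h1⟩ := hG.seq ht m (fun j => t ^ (A j.toNat))
  obtain ⟨c2, b2, s2, h2⟩ := hG.seq ht m (fun j => t ^ (B j.toNat))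
  refine ⟨![c0, b0, s0, c1, b1, s1, c2, b2, s2, t ^ (m : ℤ), t ^ l], ?_⟩
  have e1 : cN t ![c0, b0, s0, c1, b1, s1, c2, b2, s2, t ^ (m : ℤ), t ^ l] = l * l + 1 := by
    show lg t (t ^ l) * lg t (t ^ l) + 1 = _
    rw [lg_zpow ht]
  have e2 : ck t ![c0, b0, s0, c1, b1, s1, c2, b2, s2, t ^ (m : ℤ), t ^ l] = m := lg_zpow ht _
  unfold val
  rw [e1, e2, Int.toNat_natCast]
  congr 1
  refine Finset.sum_congr rfl fun j hj => ?_
  have hj' : (j : ℤ) < m := by exact_mod_cast Finset.mem_range.1 hj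
  have e3 : cg t ![c0, b0, s0, c1, b1, s1, c2, b2, s2, t ^ (m : ℤ), t ^ l] j = g j :=
    h0 j (Int.natCast_nonneg j) hj'
  have e4 : ca t ![c0, b0, s0, c1, b1, s1, c2, b2, s2, t ^ (m : ℤ), t ^ l] j = A j := by
    have := h1 j (Int.natCast_nonneg j) hj'
    show lg t (cod (c1 * t * c1⁻¹) b1 s1 j) = A j
    rw [this, Int.toNat_natCast, lg_zpow ht]
  have e5 : cb t ![c0, b0, s0, c1, b1, s1, c2, b2, s2, t ^ (m : ℤ), t ^ l] j = B j := by
    have := h2 j (Int.natCast_nonneg j) hj'
    show lg t (cod (c2 * t * c2⁻¹) b2 s2 j) = B j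
    rw [this, Int.toNat_natCast, lg_zpow ht]
  rw [e3, e4, e5]

theorem op_sum {ι : Type} (T : TVN) (S : Finset ι) (f : ι → T.E) :
    T.opNorm (∑ i ∈ S, f i) ≤ ∑ i ∈ S, T.opNorm (f i) := by
  classical
  induction S using Finset.induction_on with
  | empty => simp [op_zero]
  | insert a S ha ih =>
    rw [Finset.sum_insert ha, Finset.sum_insert ha]
    exact (op_add T _ _).trans (by linarith)

theorem approx_code (hG : EC G) {t : G} (ht : ¬ IsOfFinOrder t) (S : Finset G) (c : G → ℂ)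
    {δ : ℝ} (hδ : 0 < δ) : ∃ e : Fin 11 → G,
      (tvn G).opNorm ((∑ g ∈ S, c g • lamE g) - val t e) ≤ δ := by
  classical
  -- the denominator
  obtain ⟨l, hl⟩ : ∃ l : ℕ, 2 * (S.card : ℝ) / δ ≤ l := exists_nat_ge _
  set N : ℝ := (l : ℝ) * l + 1 with hN
  have hNpos : 0 < N := by positivity
  have hNl : (l : ℝ) ≤ N := by
    have : (0 : ℝ) ≤ l := by positivity
    rw [hN]
    nlinarith [sq_nonneg ((l : ℝ) - 1)]
  let g : ℕ → G := fun j => if h : j < S.card then (S.equivFin.symm ⟨j, h⟩ : G) else 1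
  let A : ℕ → ℤ := fun j => ⌊N * (c (g j)).re⌋
  let B : ℕ → ℤ := fun j => ⌊N * (c (g j)).im⌋
  obtain ⟨e, he⟩ := exists_code hG ht S.card g A B l
  refine ⟨e, ?_⟩
  have e1 : ∑ x ∈ S, c x • lamE x = ∑ j ∈ Finset.range S.card, c (g j) • lamE (g j) := by
    rw [Finset.sum_range, ← Finset.sum_coe_sort S (fun x => c x • lamE x),
      ← Equiv.sum_comp S.equivFin.symm]
    refine Finset.sum_congr rfl fun j _ => ?_
    have : g j = (S.equivFin.symm j : G) := by
      show (if h : (j : ℕ) < S.card then (S.equivFin.symm ⟨j, h⟩ : G) else 1) = _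
      rw [dif_pos j.2]
    rw [this]
  have e2 : (((((l : ℕ) : ℤ) * ((l : ℕ) : ℤ) + 1 : ℤ) : ℂ)) = (N : ℂ) := by
    rw [hN]
    push_cast
    rfl
  rw [he, e1, e2, Finset.smul_sum, ← Finset.sum_sub_distrib]
  have hb : ∀ j : ℕ, (tvn G).opNorm (c (g j) • lamE (g j) -
      (N : ℂ)⁻¹ • (((A j : ℂ) + (B j : ℂ) * Complex.I) • lamE (g j))) ≤ 2 / N := by
    intro j
    rw [smul_smul, ← sub_smul, op_smul]
    have h1 : ‖c (g j) - (N : ℂ)⁻¹ * ((A j : ℂ) + (B j : ℂ) * Complex.I)‖ ≤ 2 / N := by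
      have hNc : (N : ℂ) ≠ 0 := by exact_mod_cast hNpos.ne'
      have h2 : c (g j) - (N : ℂ)⁻¹ * ((A j : ℂ) + (B j : ℂ) * Complex.I) =
          (N : ℂ)⁻¹ * (((N * (c (g j)).re - A j : ℝ) : ℂ) +
            ((N * (c (g j)).im - B j : ℝ) : ℂ) * Complex.I) := by
        have h3 : c (g j) = ((c (g j)).re : ℂ) + ((c (g j)).im : ℂ) * Complex.I :=
          (Complex.re_add_im _).symm
        conv_lhs => rw [h3]
        push_cast
        field_simp
        ring
      rw [h2, norm_mul, norm_inv, Complex.norm_real, Real.norm_eq_abs, abs_of_pos hNpos,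
        ← div_eq_inv_mul]
      gcongr
      refine (norm_add_le _ _).trans ?_
      rw [norm_mul, Complex.norm_I, mul_one, Complex.norm_real, Complex.norm_real,
        Real.norm_eq_abs, Real.norm_eq_abs]
      have h4 := Int.floor_le (N * (c (g j)).re)
      have h5 := Int.lt_floor_add_one (N * (c (g j)).re)
      have h6 := Int.floor_le (N * (c (g j)).im)
      have h7 := Int.lt_floor_add_one (N * (c (g j)).im)
      have h8 : |N * (c (g j)).re - (A j : ℝ)| ≤ 1 := by
        rw [abs_le]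
        constructor
        · show -1 ≤ N * (c (g j)).re - (⌊N * (c (g j)).re⌋ : ℝ)
          linarith
        · show N * (c (g j)).re - (⌊N * (c (g j)).re⌋ : ℝ) ≤ 1
          linarith
      have h9 : |N * (c (g j)).im - (B j : ℝ)| ≤ 1 := by
        rw [abs_le]
        constructor
        · show -1 ≤ N * (c (g j)).im - (⌊N * (c (g j)).im⌋ : ℝ)
          linarith
        · show N * (c (g j)).im - (⌊N * (c (g j)).im⌋ : ℝ) ≤ 1
          linarith
      linarith
    have h2 := op_lamE (g j)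
    have h3 := op_nonneg (tvn G) (lamE (g j))
    calc _ ≤ 2 / N * 1 := mul_le_mul h1 h2 h3 (by positivity)
      _ = 2 / N := mul_one _
  refine (op_sum _ _ _).trans ((Finset.sum_le_sum fun j _ => hb j).trans ?_)
  rw [Finset.sum_const, Finset.card_range, nsmul_eq_mul, mul_div_assoc', div_le_iff₀ hNpos]
  rw [div_le_iff₀ hδ] at hl
  nlinarith

theorem vec_lamE (g : G) : vec (lamE g) = (delta g : Ell G) := by
  show lam g (delta 1) = _
  rw [lam_delta, mul_one]

theorem vec_sum (S : Finset G) (c : G → ℂ) :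
    vec (∑ g ∈ S, c g • lamE g) = ∑ g ∈ S, c g • (delta g : Ell G) := by
  classical
  induction S using Finset.induction_on with
  | empty => rfl
  | insert a S ha ih =>
    rw [Finset.sum_insert ha, Finset.sum_insert ha, ← ih, ← vec_lamE]
    rfl

omit [Group G] in
theorem dense_vec (ξ : Ell G) {δ : ℝ} (hδ : 0 < δ) : ∃ (S : Finset G) (c : G → ℂ),
    ‖ξ - ∑ g ∈ S, c g • (delta g : Ell G)‖ < δ := by
  let := Classical.decEq G
  have h1 := lp.hasSum_single (E := fun _ : G => ℂ) (p := 2) (by norm_num) ξ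
  have e : ∀ i, (lp.single 2 i (ξ i) : Ell G) = (ξ i) • (delta i : Ell G) := by
    intro i
    unfold delta
    rw [← lp.single_smul]
    congr 1
    simp
  simp only [e] at h1
  have h2 := (Metric.tendsto_atTop.1 h1) δ hδ
  obtain ⟨S, hS⟩ := h2
  refine ⟨S, ξ, ?_⟩
  have := hS S le_rfl
  rwa [dist_eq_norm, norm_sub_rev] at this

/-- the finite sums -/
noncomputable def finS (G : Type) [Group G] : StarSubalgebra ℂ (tvn G).E where
  carrier := Submodule.span ℂ (Set.range (lamE (G := G)))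
  mul_mem' := by
    intro a b ha hb
    show a * b ∈ Submodule.span ℂ (Set.range (lamE (G := G)))
    refine Submodule.span_induction₂ (p := fun a b _ _ =>
      a * b ∈ Submodule.span ℂ (Set.range (lamE (G := G)))) ?_ ?_ ?_ ?_ ?_ ?_ ?_ ha hb
    · rintro _ _ ⟨g, rfl⟩ ⟨h, rfl⟩
      rw [← lamE_mul]
      exact Submodule.subset_span ⟨_, rfl⟩
    · intro y _
      rw [zero_mul]
      exact Submodule.zero_mem _
    · intro x _
      rw [mul_zero]
      exact Submodule.zero_mem _
    · intro x y z _ _ _ h1 h2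
      rw [add_mul]
      exact Submodule.add_mem _ h1 h2
    · intro x y z _ _ _ h1 h2
      rw [mul_add]
      exact Submodule.add_mem _ h1 h2
    · intro r x y _ _ h1
      rw [smul_mul_assoc]
      exact Submodule.smul_mem _ _ h1
    · intro r x y _ _ h1
      rw [mul_smul_comm]
      exact Submodule.smul_mem _ _ h1
  add_mem' := fun ha hb => Submodule.add_mem _ ha hb
  algebraMap_mem' := by
    intro r
    rw [Algebra.algebraMap_eq_smul_one, ← lamE_one]
    exact Submodule.smul_mem _ _ (Submodule.subset_span ⟨_, rfl⟩)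
  star_mem' := by
    intro a ha
    show star a ∈ Submodule.span ℂ (Set.range (lamE (G := G)))
    refine Submodule.span_induction (p := fun a _ =>
      star a ∈ Submodule.span ℂ (Set.range (lamE (G := G)))) ?_ ?_ ?_ ?_ ha
    · rintro _ ⟨g, rfl⟩
      rw [star_lamE]
      exact Submodule.subset_span ⟨_, rfl⟩
    · rw [star_zero]
      exact Submodule.zero_mem _
    · intro x y _ _ h1 h2
      rw [star_add]
      exact Submodule.add_mem _ h1 h2
    · intro r x _ h1
      rw [star_smul]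
      exact Submodule.smul_mem _ _ h1

theorem finS_repr {a : (tvn G).E} (ha : a ∈ finS G) : ∃ (S : Finset G) (c : G → ℂ),
    a = ∑ g ∈ S, c g • lamE g := by
  have h : a ∈ Submodule.span ℂ (Set.range (lamE (G := G))) := ha
  obtain ⟨c, hc⟩ := (Finsupp.mem_span_range_iff_exists_finsupp).1 h
  exact ⟨c.support, c, hc.symm⟩

theorem sum_mem_finS (S : Finset G) (c : G → ℂ) : ∑ g ∈ S, c g • lamE g ∈ finS G :=
  Submodule.sum_mem _ fun g _ => Submodule.smul_mem _ _ (Submodule.subset_span ⟨g, rfl⟩)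

theorem twoNorm_tvn (G : Type) [Group G] : TwoNorm (M := Elt (tvn G).N) (tvn G).norm2 where
  nonneg := norm2_nonneg _
  add := norm2_add _
  smul := norm2_smul _
  left := norm2_mul_left _
  right := norm2_mul_right _
  star := norm2_star _
  le := norm2_le_op _

theorem dense_finS (x : (tvn G).E) (ε : ℝ) (hε : 0 < ε) : ∃ a ∈ finS G,
    (tvn G).norm2 (x - a) < ε := by
  obtain ⟨S, c, h⟩ := dense_vec (vec x) hε
  refine ⟨_, sum_mem_finS S c, ?_⟩
  rw [Pool.Agent.R283.GV.norm2_eq, vec_sub, vec_sum]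
  exact h

/-- density in the unit ball -/
theorem kap_unit (y : (tvn G).E) (hy : (tvn G).opNorm y ≤ 1) {ε : ℝ} (hε : 0 < ε) :
    ∃ a ∈ finS G, (tvn G).opNorm a ≤ 1 ∧ (tvn G).norm2 (y - a) < ε :=
  kaplansky' (M := Elt (tvn G).N) (twoNorm_tvn G) (finS G) dense_finS y hy ε hε

theorem val_one (t : G) (ht : ¬ IsOfFinOrder t) : val t (fun _ => 1) = 0 := by
  have e2 : ck t (fun _ => (1 : G)) = 0 := by
    show lg t 1 = 0
    rw [← zpow_zero t, lg_zpow ht]
  unfold val
  rw [e2]
  simp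

/-- density of the elements with codes -/
theorem dense_ball (hG : EC G) {t : G} (ht : ¬ IsOfFinOrder t) (r : ℕ) (y : (tvn G).E)
    (hy : (tvn G).opNorm y ≤ r) {δ : ℝ} (hδ : 0 < δ) :
    ∃ e : Fin 11 → G, (tvn G).opNorm (val t e) ≤ r ∧ (tvn G).norm2 (y - val t e) ≤ δ := by
  rcases Nat.eq_zero_or_pos r with rfl | hr
  · refine ⟨fun _ => 1, ?_, ?_⟩
    · rw [val_one t ht, op_zero]
      simp
    · rw [val_one t ht, sub_zero]
      have := norm2_le_op (tvn G) y
      have h0 : ((0 : ℕ) : ℝ) = 0 := Nat.cast_zero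
      rw [h0] at hy
      linarith
  · have hr0 : (0 : ℝ) < r := by exact_mod_cast hr
    -- Kaplansky
    have h1 : (tvn G).opNorm (((r : ℂ)⁻¹) • y) ≤ 1 := by
      rw [op_smul, norm_inv, Complex.norm_natCast, inv_mul_le_iff₀ hr0, mul_one]
      exact hy
    obtain ⟨a, ha, ha1, ha2⟩ := kap_unit (((r : ℂ)⁻¹) • y) h1 (ε := δ / (3 * r)) (by positivity)
    obtain ⟨S, c, rfl⟩ := finS_repr ha
    set a := ∑ g ∈ S, c g • lamE g with hadef
    -- shrinking
    obtain ⟨η, hη0, hη1, hη2⟩ : ∃ η : ℝ, 0 < η ∧ η ≤ 1 ∧ r * η ≤ δ / 3 := by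
      refine ⟨min 1 (δ / (3 * r)), lt_min one_pos (by positivity), min_le_left _ _, ?_⟩
      calc (r : ℝ) * min 1 (δ / (3 * r)) ≤ r * (δ / (3 * r)) :=
            mul_le_mul_of_nonneg_left (min_le_right _ _) hr0.le
        _ = δ / 3 := by field_simp
    obtain ⟨z, hz⟩ : ∃ z : (tvn G).E, z = (((1 - η) * r : ℝ) : ℂ) • a := ⟨_, rfl⟩
    have hz' : z = ∑ g ∈ S, ((((1 - η) * r : ℝ) : ℂ) * c g) • lamE g := by
      rw [hz, hadef, Finset.smul_sum]
      refine Finset.sum_congr rfl fun g _ => smul_smul _ _ _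
    obtain ⟨e, he⟩ := approx_code hG ht S (fun g => (((1 - η) * r : ℝ) : ℂ) * c g)
      (δ := r * η) (by positivity)
    rw [← hz'] at he
    have hzn : (tvn G).opNorm z ≤ (1 - η) * r := by
      rw [hz, op_smul, Complex.norm_real, Real.norm_eq_abs,
        abs_of_nonneg (mul_nonneg (by linarith) hr0.le)]
      calc (1 - η) * r * (tvn G).opNorm a ≤ (1 - η) * r * 1 :=
            mul_le_mul_of_nonneg_left ha1 (mul_nonneg (by linarith) hr0.le)
        _ = (1 - η) * r := mul_one _
    refine ⟨e, ?_, ?_⟩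
    · have e1 : val t e = z + (-1 : ℂ) • (z - val t e) := by
        rw [neg_one_smul]
        abel
      rw [e1]
      refine (op_add _ _ _).trans ?_
      rw [op_smul, norm_neg, norm_one, one_mul]
      linarith
    · have e1 : y - val t e = (r : ℂ) • (((r : ℂ)⁻¹) • y - a) + ((((η * r : ℝ) : ℂ) • a) +
          (z - val t e)) := by
        have hrc : (r : ℂ) ≠ 0 := by exact_mod_cast hr0.ne'
        rw [hz, smul_sub, smul_inv_smul₀ hrc]
        have h2 : (((1 - η) * r : ℝ) : ℂ) • a = (r : ℂ) • a - ((η * r : ℝ) : ℂ) • a := by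
          rw [← sub_smul]
          congr 1
          push_cast
          ring
        rw [h2]
        abel
      rw [e1]
      have h3 : (tvn G).norm2 ((r : ℂ) • (((r : ℂ)⁻¹) • y - a)) ≤ δ / 3 := by
        rw [norm2_smul, Complex.norm_natCast]
        calc (r : ℝ) * (tvn G).norm2 (((r : ℂ)⁻¹) • y - a) ≤ r * (δ / (3 * r)) :=
              mul_le_mul_of_nonneg_left ha2.le hr0.le
          _ = δ / 3 := by field_simp
      have h4 : (tvn G).norm2 (((η * r : ℝ) : ℂ) • a) ≤ δ / 3 := by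
        rw [norm2_smul, Complex.norm_real, Real.norm_eq_abs, abs_of_nonneg (by positivity)]
        have h5 := (norm2_le_op (tvn G) a).trans ha1
        calc η * r * (tvn G).norm2 a ≤ η * r * 1 :=
              mul_le_mul_of_nonneg_left h5 (by positivity)
          _ ≤ δ / 3 := by linarith
      have h6 : (tvn G).norm2 (z - val t e) ≤ δ / 3 :=
        (norm2_le_op _ _).trans (he.trans hη2)
      have h7 := norm2_add (tvn G) ((r : ℂ) • (((r : ℂ)⁻¹) • y - a))
        ((((η * r : ℝ) : ℂ) • a) + (z - val t e))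
      have h8 := norm2_add (tvn G) (((η * r : ℝ) : ℂ) • a) (z - val t e)
      linarith

/-- the operator norm by the vectors with codes -/
theorem op_le_iff (hG : EC G) {t : G} (ht : ¬ IsOfFinOrder t) (y : (tvn G).E) {r : ℝ}
    (hr : 0 ≤ r) : (tvn G).opNorm y ≤ r ↔ ∀ f : Fin 11 → G,
      (tvn G).norm2 (y * val t f) ≤ r * (tvn G).norm2 (val t f) := by
  constructor
  · intro h f
    exact (norm2_mul_left _ _ _).trans (mul_le_mul_of_nonneg_right h (norm2_nonneg _ _))
  · intro h
    show ‖toOp y‖ ≤ r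
    refine ContinuousLinearMap.opNorm_le_bound _ hr fun ξ => ?_
    apply le_of_forall_pos_le_add
    intro ε hε
    set C : ℝ := ‖toOp y‖ + r + 1 with hC
    have hC0 : 0 < C := by
      have := norm_nonneg (toOp y)
      positivity
    obtain ⟨S, c, hS⟩ := dense_vec ξ (δ := ε / (2 * C)) (by positivity)
    obtain ⟨f, hf⟩ := approx_code hG ht S c (δ := ε / (2 * C)) (by positivity)
    have h1 : ‖ξ - vec (val t f)‖ ≤ ε / C := by
      have e1 : ξ - vec (val t f) = (ξ - ∑ g ∈ S, c g • (delta g : Ell G)) +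
          vec (∑ g ∈ S, c g • lamE g - val t f) := by
        rw [vec_sub, vec_sum]
        abel
      have h2 : ‖vec (∑ g ∈ S, c g • lamE g - val t f)‖ ≤ ε / (2 * C) := by
        rw [← Pool.Agent.R283.GV.norm2_eq]
        exact (norm2_le_op _ _).trans hf
      rw [e1]
      refine (norm_add_le _ _).trans ?_
      have e2 : ε / C = ε / (2 * C) + ε / (2 * C) := by
        field_simp
        ring
      rw [e2]
      exact add_le_add hS.le h2
    have h3 : ‖toOp y (vec (val t f))‖ ≤ r * ‖vec (val t f)‖ := by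
      have := h f
      rw [Pool.Agent.R283.GV.norm2_eq, Pool.Agent.R283.GV.norm2_eq] at this
      exact this
    have h4 : ‖toOp y (ξ - vec (val t f))‖ ≤ ‖toOp y‖ * (ε / C) :=
      ((toOp y).le_opNorm _).trans (mul_le_mul_of_nonneg_left h1 (norm_nonneg _))
    have h5 : ‖vec (val t f)‖ ≤ ‖ξ‖ + ε / C := by
      have e3 : vec (val t f) = ξ - (ξ - vec (val t f)) := by abel
      rw [e3]
      exact (norm_sub_le _ _).trans (by linarith)
    have e4 : toOp y ξ = toOp y (vec (val t f)) + toOp y (ξ - vec (val t f)) := by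
      rw [← map_add]
      congr 1
      abel
    rw [e4]
    refine (norm_add_le _ _).trans ?_
    have h6 : r * ‖vec (val t f)‖ ≤ r * (‖ξ‖ + ε / C) := mul_le_mul_of_nonneg_left h5 hr
    have h7 : (‖toOp y‖ + r) * (ε / C) ≤ ε := by
      rw [mul_div_assoc', div_le_iff₀ hC0, hC]
      nlinarith
    nlinarith

end Pool.Agent.Zk94.IG
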