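import Pool.Agent.Zk94.IG.Over

/-! # Consequences of existential closedness -/

set_option autoImplicit false

namespace Pool.Agent.Zk94.IG

open Function

/-- existentially closed (systems with a finite tuple of parameters) -/
def EC (G : Type) [Group G] : Prop :=
  ∀ (p n : ℕ) (a : Fin p → G) (E N : Finset (FreeGroup (Fin p ⊕ Fin n))),
    (∃ (K : Type) (_ : Group K) (i : G →* K) (x : Fin n → K), Injective i ∧
      (∀ w ∈ E, FreeGroup.lift (Sum.elim (fun j => i (a j)) x) w = 1) ∧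
      ∀ w ∈ N, FreeGroup.lift (Sum.elim (fun j => i (a j)) x) w ≠ 1) →
    ∃ x : Fin n → G, (∀ w ∈ E, FreeGroup.lift (Sum.elim a x) w = 1) ∧
      ∀ w ∈ N, FreeGroup.lift (Sum.elim a x) w ≠ 1

variable {G : Type} [Group G]

/-- the variable `i` -/
abbrev vx (p : ℕ) {n : ℕ} (i : Fin n) : FreeGroup (Fin p ⊕ Fin n) := FreeGroup.of (Sum.inr i)

/-- the parameter `i` -/
abbrev pr (n : ℕ) {p : ℕ} (i : Fin p) : FreeGroup (Fin p ⊕ Fin n) := FreeGroup.of (Sum.inl i)

theorem EC.conj (hG : EC G) {t a : G} (ht : ¬ IsOfFinOrder t) (ha : ¬ IsOfFinOrder a) :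
    ∃ c : G, c * t * c⁻¹ = a := by
  classical
  obtain ⟨K, iK, i, c, hi, hc⟩ := over_conj ht ha
  obtain ⟨x, hx, -⟩ := hG 2 1 ![t, a] {vx 2 0 * pr 1 0 * (vx 2 0)⁻¹ * (pr 1 1)⁻¹} ∅
    ⟨K, iK, i, fun _ => c, hi, by simp [hc], by simp⟩
  refine ⟨x 0, ?_⟩
  have h := hx _ (Finset.mem_singleton_self _)
  simp only [map_mul, map_inv, FreeGroup.lift_apply_of, Sum.elim_inr, Sum.elim_inl] at h
  exact mul_inv_eq_one.1 h

theorem EC.cent (hG : EC G) {t u : G} (hu : u ∉ Subgroup.zpowers t) :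
    ∃ z : G, z * t = t * z ∧ z * u ≠ u * z := by
  classical
  obtain ⟨K, iK, i, z, hi, hz⟩ := over_cent (Subgroup.zpowers t)
  obtain ⟨x, hx, hy⟩ := hG 2 1 ![t, u] {vx 2 0 * pr 1 0 * (pr 1 0 * vx 2 0)⁻¹}
    {vx 2 0 * pr 1 1 * (pr 1 1 * vx 2 0)⁻¹}
    ⟨K, iK, i, fun _ => z, hi, by
      simp only [Finset.mem_singleton, forall_eq, map_mul, map_inv, FreeGroup.lift_apply_of,
        Sum.elim_inr, Sum.elim_inl]
      exact mul_inv_eq_one.2 ((hz t).2 (Subgroup.mem_zpowers t)), by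
      simp only [Finset.mem_singleton, forall_eq, map_mul, map_inv, FreeGroup.lift_apply_of,
        Sum.elim_inr, Sum.elim_inl, ne_eq, mul_inv_eq_one]
      exact fun h => hu ((hz u).1 h)⟩
  refine ⟨x 0, ?_, ?_⟩
  · have h := hx _ (Finset.mem_singleton_self _)
    simp only [map_mul, map_inv, FreeGroup.lift_apply_of, Sum.elim_inr, Sum.elim_inl] at h
    exact mul_inv_eq_one.1 h
  · have h := hy _ (Finset.mem_singleton_self _)
    simp only [map_mul, map_inv, FreeGroup.lift_apply_of, Sum.elim_inr, Sum.elim_inl, ne_eq] at h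
    exact fun e => h (mul_inv_eq_one.2 e)

theorem EC.mem_zpowers (hG : EC G) {t u : G} :
    u ∈ Subgroup.zpowers t ↔ ∀ z : G, z * t = t * z → z * u = u * z := by
  constructor
  · rintro ⟨n, rfl⟩ z hz
    exact (Commute.zpow_right hz n)
  · intro h
    by_contra hu
    obtain ⟨z, h1, h2⟩ := hG.cent hu
    exact h2 (h z h1)

theorem EC.seq (hG : EC G) {t : G} (ht : ¬ IsOfFinOrder t) (k : ℕ) (h : ℤ → G) :
    ∃ c b s : G, ∀ j : ℤ, 0 ≤ j → j < k → cod (c * t * c⁻¹) b s j = h j := by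
  classical
  obtain ⟨K, iK, i, c, b, s, hi, hs⟩ := over_seq ht h
  let W : Fin k → FreeGroup (Fin (k + 1) ⊕ Fin 3) := fun j =>
    cod (vx (k + 1) (0 : Fin 3) * pr 3 (0 : Fin (k + 1)) * (vx (k + 1) (0 : Fin 3))⁻¹)
      (vx (k + 1) 1) (vx (k + 1) 2) (j : ℕ) * (pr 3 j.succ)⁻¹
  obtain ⟨x, hx, -⟩ := hG (k + 1) 3 (Fin.cons t (fun j : Fin k => h (j : ℕ)))
    (Finset.univ.image W) ∅
    ⟨K, iK, i, ![c, b, s], hi, by
      simp only [Finset.mem_image, Finset.mem_univ, true_and, forall_exists_index,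
        forall_apply_eq_imp_iff, W, map_mul, map_inv, map_cod, FreeGroup.lift_apply_of,
        Sum.elim_inr, Sum.elim_inl, Fin.cons_zero, Fin.cons_succ]
      intro j
      rw [mul_inv_eq_one]
      exact (hs (j : ℕ)).symm, by simp⟩
  refine ⟨x 0, x 1, x 2, fun j hj0 hjk => ?_⟩
  obtain ⟨m, rfl⟩ := Int.eq_ofNat_of_zero_le hj0
  have hm : m < k := by exact_mod_cast hjk
  have h1 := hx (W ⟨m, hm⟩) (Finset.mem_image_of_mem _ (Finset.mem_univ _))
  simp only [W, map_mul, map_inv, map_cod, FreeGroup.lift_apply_of, Sum.elim_inr, Sum.elim_inl,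
    Fin.cons_zero, Fin.cons_succ] at h1
  exact mul_inv_eq_one.1 h1

theorem not_mem_zpowers_sq {t : G} (ht : ¬ IsOfFinOrder t) : t ∉ Subgroup.zpowers (t ^ 2) := by
  rintro ⟨n, hn⟩
  have h1 : t ^ (2 * n) = t ^ (1 : ℤ) := by
    rw [zpow_mul, zpow_one]
    exact_mod_cast hn
  have := injective_zpow_iff_not_isOfFinOrder.2 ht h1
  omega

theorem inf_sq {t : G} (ht : ¬ IsOfFinOrder t) : ¬ IsOfFinOrder (t ^ 2) := by
  intro h
  exact ht (h.of_pow (by norm_num))

theorem inf_of {t s z : G} (hs : s * t * s⁻¹ = t ^ 2) (hz : z * t ^ 2 = t ^ 2 * z)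
    (hz' : z * t ≠ t * z) : ¬ IsOfFinOrder t := by
  intro ht
  have h1 : orderOf (t ^ 2) = orderOf t := by
    rw [← hs]
    exact orderOf_injective (MulAut.conj s).toMonoidHom (MulAut.conj s).injective t
  have h2 := orderOf_pow_of_dvd (x := t) (n := 2) (by norm_num)
  have h3 : Nat.Coprime 2 (orderOf t) := by
    rw [Nat.coprime_comm]
    have h4 := orderOf_pow' t (n := 2) (by norm_num)
    rw [h1] at h4
    have h5 : 0 < orderOf t := ht.orderOf_pos
    have h6 : Nat.gcd (orderOf t) 2 ≤ 1 := by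
      by_contra hcon
      push Not at hcon
      have := Nat.div_lt_self h5 hcon
      omega
    have h7 : 0 < Nat.gcd (orderOf t) 2 := Nat.gcd_pos_of_pos_left _ h5
    exact le_antisymm h6 h7
  obtain ⟨m, hm⟩ := exists_pow_eq_self_of_coprime h3
  apply hz'
  have h4 : Commute z ((t ^ 2) ^ m) := Commute.pow_right hz m
  rw [hm] at h4
  exact h4

theorem EC.inf_iff (hG : EC G) (t : G) : ¬ IsOfFinOrder t ↔
    (∃ s, s * t * s⁻¹ = t ^ 2) ∧ ∃ z, z * t ^ 2 = t ^ 2 * z ∧ z * t ≠ t * z := by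
  constructor
  · intro ht
    exact ⟨hG.conj ht (inf_sq ht), hG.cent (not_mem_zpowers_sq ht)⟩
  · rintro ⟨⟨s, hs⟩, z, hz, hz'⟩
    exact inf_of hs hz hz'

theorem EC.exists_inf (hG : EC G) : ∃ t : G, ¬ IsOfFinOrder t := by
  classical
  obtain ⟨K1, iK1, i1, s, hi1, hs⟩ := over_conj (shA_inf (G := G)) (inf_sq (shA_inf (G := G)))
  let t1 : K1 := i1 (shA G)
  have ht1 : ¬ IsOfFinOrder t1 := by
    show ¬ IsOfFinOrder (i1 (shA G))
    rw [hi1.isOfFinOrder_iff]
    exact shA_inf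
  obtain ⟨K2, iK2, i2, z, hi2, hz⟩ := over_cent (Subgroup.zpowers (t1 ^ 2))
  obtain ⟨x, hx, hy⟩ := hG 0 3 ![] {vx 0 1 * vx 0 0 * (vx 0 1)⁻¹ * (vx 0 0 ^ 2)⁻¹,
      vx 0 2 * vx 0 0 ^ 2 * (vx 0 0 ^ 2 * vx 0 2)⁻¹}
    {vx 0 2 * vx 0 0 * (vx 0 0 * vx 0 2)⁻¹}
    ⟨K2, iK2, i2.comp (i1.comp (emb0 G)), ![i2 t1, i2 s, z],
      hi2.comp (hi1.comp emb0_inj), by
      simp only [Finset.mem_insert, Finset.mem_singleton, forall_eq_or_imp, forall_eq, map_mul,
        map_inv, map_pow, FreeGroup.lift_apply_of, Sum.elim_inr, mul_inv_eq_one]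
      constructor
      · show i2 s * i2 t1 * (i2 s)⁻¹ = i2 t1 ^ 2
        rw [← map_mul, ← map_inv, ← map_mul, ← map_pow]
        congr 1
        rw [hs, map_pow]
      · have h1 := (hz (t1 ^ 2)).2 (Subgroup.mem_zpowers _)
        rw [map_pow] at h1
        exact h1, by
      simp only [Finset.mem_singleton, forall_eq, map_mul, map_inv, FreeGroup.lift_apply_of,
        Sum.elim_inr, ne_eq, mul_inv_eq_one]
      exact fun h => not_mem_zpowers_sq ht1 ((hz t1).1 h)⟩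
  refine ⟨x 0, inf_of (s := x 1) (z := x 2) ?_ ?_ ?_⟩
  · have h := hx _ (Finset.mem_insert_self _ _)
    simp only [map_mul, map_inv, map_pow, FreeGroup.lift_apply_of, Sum.elim_inr,
      mul_inv_eq_one] at h
    exact h
  · have h := hx _ (Finset.mem_insert_of_mem (Finset.mem_singleton_self _))
    simp only [map_mul, map_inv, map_pow, FreeGroup.lift_apply_of, Sum.elim_inr,
      mul_inv_eq_one] at h
    exact h
  · have h := hy _ (Finset.mem_singleton_self _)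
    simp only [map_mul, map_inv, FreeGroup.lift_apply_of, Sum.elim_inr, ne_eq,
      mul_inv_eq_one] at h
    exact h

end Pool.Agent.Zk94.IG
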