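import Pool.Agent.Helper278.RGKap

/-! # Kaplansky's density theorem for the 2-norm, with the exact constant -/

set_option autoImplicit false
set_option linter.unusedVariables false

noncomputable section

namespace Pool.Agent.Zk94.IG

open Pool.Agent.Helper278.RG

variable {M : Type*} [CStarAlgebra M]

/-- the function `1 / (1 + |t|)` -/
def rs (t : ℝ) : ℝ := (1 + |t|)⁻¹

theorem rs_cont : Continuous rs := by
  unfold rs
  refine Continuous.inv₀ (by fun_prop) (fun t => ?_)
  positivity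

theorem one_add_eq (s : M) (hs : IsSelfAdjoint s) (h0 : ∀ x ∈ spectrum ℝ s, 0 ≤ x) :
    (1 + s : M) = cfc (fun t : ℝ => 1 + |t|) s := by
  have hid : ContinuousOn (fun t : ℝ => t) (spectrum ℝ s) := continuous_id.continuousOn
  have h1 : cfc (fun t : ℝ => 1 + |t|) s = cfc (fun t : ℝ => 1 + t) s := by
    apply cfc_congr
    intro t ht
    simp only
    rw [abs_of_nonneg (h0 t ht)]
  rw [h1, cfc_add s (fun _ : ℝ => (1 : ℝ)) (fun t : ℝ => t) continuousOn_const hid,
    cfc_const_one ℝ s, cfc_id' ℝ s hs]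

theorem rs_facts (s : M) (hs : IsSelfAdjoint s) (h0 : ∀ x ∈ spectrum ℝ s, 0 ≤ x) :
    ‖cfc rs s‖ ≤ 1 ∧ cfc rs s * (1 + s) = 1 ∧ (1 + s) * cfc rs s = 1 ∧
      ‖cfc rs s * s * cfc rs s‖ ≤ 1 / 4 := by
  have hc : ContinuousOn rs (spectrum ℝ s) := rs_cont.continuousOn
  have hid : ContinuousOn (fun t : ℝ => t) (spectrum ℝ s) := continuous_id.continuousOn
  have hc5 : ContinuousOn (fun t : ℝ => 1 + |t|) (spectrum ℝ s) :=
    (continuous_const.add continuous_abs).continuousOn
  refine ⟨?_, ?_, ?_, ?_⟩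
  · refine norm_cfc_le zero_le_one (fun t _ => ?_)
    unfold rs
    rw [Real.norm_eq_abs, abs_inv, abs_of_pos (by positivity : (0 : ℝ) < 1 + |t|)]
    apply inv_le_one_of_one_le₀
    linarith [abs_nonneg t]
  · rw [one_add_eq s hs h0, ← cfc_mul rs (fun t : ℝ => 1 + |t|) s hc hc5, ← cfc_const_one ℝ s]
    congr 1
    funext t
    unfold rs
    exact inv_mul_cancel₀ (by positivity)
  · rw [one_add_eq s hs h0, ← cfc_mul (fun t : ℝ => 1 + |t|) rs s hc5 hc, ← cfc_const_one ℝ s]
    congr 1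
    funext t
    unfold rs
    exact mul_inv_cancel₀ (by positivity)
  · have h1 : cfc rs s * s * cfc rs s = cfc (fun t : ℝ => rs t * t * rs t) s := by
      rw [cfc_mul (fun t => rs t * t) rs s (hc.mul hid) hc, cfc_mul rs (fun t => t) s hc hid,
        cfc_id' ℝ s hs]
    rw [h1]
    refine norm_cfc_le (by norm_num) (fun t ht => ?_)
    have h2 := h0 t ht
    unfold rs
    rw [Real.norm_eq_abs, abs_of_nonneg h2, abs_of_nonneg (by positivity)]
    have h3 : (0 : ℝ) < 1 + t := by positivity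
    rw [mul_assoc, inv_mul_le_iff₀ h3, ← div_eq_mul_inv, div_le_iff₀ h3]
    nlinarith [sq_nonneg (t - 1)]

/-- the function `2 (1 + a a*)⁻¹ a` -/
def kF (a : M) : M := (2 : ℂ) • (cfc rs (a * star a) * a)

theorem sa1 (a : M) : IsSelfAdjoint (a * star a) := IsSelfAdjoint.mul_star_self a

theorem sa2 (a : M) : IsSelfAdjoint (star a * a) := IsSelfAdjoint.star_mul_self a

theorem sp2 (a : M) : ∀ x ∈ spectrum ℝ (star a * a), 0 ≤ x := spectrum_star_mul_self_nonneg

theorem sp1 (a : M) : ∀ x ∈ spectrum ℝ (a * star a), 0 ≤ x := by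
  have := sp2 (star a)
  rwa [star_star] at this

theorem kF_comm (a : M) : cfc rs (a * star a) * a = a * cfc rs (star a * a) := by
  obtain ⟨-, h1, h2, -⟩ := rs_facts (a * star a) (sa1 a) (sp1 a)
  obtain ⟨-, h3, h4, -⟩ := rs_facts (star a * a) (sa2 a) (sp2 a)
  calc cfc rs (a * star a) * a = cfc rs (a * star a) * a * ((1 + star a * a) *
        cfc rs (star a * a)) := by rw [h4, mul_one]
    _ = cfc rs (a * star a) * (1 + a * star a) * (a * cfc rs (star a * a)) := by noncomm_ring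
    _ = a * cfc rs (star a * a) := by rw [h1, one_mul]

theorem rsa_norm (a : M) : ‖cfc rs (a * star a) * a‖ ≤ 1 / 2 := by
  obtain ⟨-, -, -, h1⟩ := rs_facts (a * star a) (sa1 a) (sp1 a)
  have h2 : IsSelfAdjoint (cfc rs (a * star a)) := cfc_predicate _ _
  have h3 : (cfc rs (a * star a) * a) * star (cfc rs (a * star a) * a) =
      cfc rs (a * star a) * (a * star a) * cfc rs (a * star a) := by
    rw [star_mul, h2.star_eq]
    noncomm_ring
  have h4 := CStarRing.norm_self_mul_star (x := cfc rs (a * star a) * a)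
  rw [h3] at h4
  nlinarith [norm_nonneg (cfc rs (a * star a) * a)]

theorem kF_norm (a : M) : ‖kF a‖ ≤ 1 := by
  unfold kF
  rw [norm_smul]
  have := rsa_norm a
  have h2 : ‖(2 : ℂ)‖ = 2 := by norm_num
  rw [h2]
  linarith

theorem kF_lip {N : M → ℝ} (hN : TwoNorm N) (a b : M) : N (kF a - kF b) ≤ 4 * N (a - b) := by
  obtain ⟨hA1, hA2, hA3, -⟩ := rs_facts (a * star a) (sa1 a) (sp1 a)
  obtain ⟨hB1, hB2, hB3, -⟩ := rs_facts (star b * b) (sa2 b) (sp2 b)
  have hAa := rsa_norm a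
  have hBb := rsa_norm b
  rw [kF_comm b] at hBb
  unfold kF
  rw [kF_comm b, ← smul_sub, hN.smul]
  set A := cfc rs (a * star a) with hA
  set B := cfc rs (star b * b) with hB
  have hneg : ∀ z, N (-z) = N z := by
    intro z
    have := hN.smul (-1) z
    simpa using this
  have e : A * a - b * B = A * (a - b) * B + (A * a) * star (b - a) * (b * B) := by
    calc A * a - b * B = A * a * ((1 + star b * b) * B) - (A * (1 + a * star a)) * (b * B) := by
          rw [hA2, hB3, mul_one, one_mul]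
      _ = A * (a - b) * B + (A * a) * (star b - star a) * (b * B) := by noncomm_ring
      _ = _ := by rw [star_sub]
  have h0 := hN.nonneg (a - b)
  have h1 : N (A * (a - b) * B) ≤ N (a - b) := by
    calc N (A * (a - b) * B) ≤ N (A * (a - b)) * ‖B‖ := hN.right _ _
      _ ≤ N (A * (a - b)) * 1 := mul_le_mul_of_nonneg_left hB1 (hN.nonneg _)
      _ = N (A * (a - b)) := mul_one _
      _ ≤ ‖A‖ * N (a - b) := hN.left _ _
      _ ≤ 1 * N (a - b) := mul_le_mul_of_nonneg_right hA1 h0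
      _ = N (a - b) := one_mul _
  have h5 : N (star (b - a)) = N (a - b) := by
    rw [hN.star, ← hneg (b - a), neg_sub]
  have h2 : N ((A * a) * star (b - a) * (b * B)) ≤ N (a - b) := by
    calc N ((A * a) * star (b - a) * (b * B)) ≤ N ((A * a) * star (b - a)) * ‖b * B‖ := hN.right _ _
      _ ≤ N ((A * a) * star (b - a)) * 1 :=
          mul_le_mul_of_nonneg_left (by linarith) (hN.nonneg _)
      _ = N ((A * a) * star (b - a)) := mul_one _
      _ ≤ ‖A * a‖ * N (star (b - a)) := hN.left _ _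
      _ ≤ 1 * N (star (b - a)) := mul_le_mul_of_nonneg_right (by linarith) (hN.nonneg _)
      _ = N (a - b) := by rw [one_mul, h5]
  have h3 := hN.add (A * (a - b) * B) ((A * a) * star (b - a) * (b * B))
  rw [← e] at h3
  have h4 : ‖(2 : ℂ)‖ = 2 := by norm_num
  rw [h4]
  linarith

/-- the function `1 / (1 + √(1 - s))` -/
def gs (s : ℝ) : ℝ := (1 + Real.sqrt (1 - s))⁻¹

theorem gs_cont : Continuous gs := by
  unfold gs
  refine Continuous.inv₀ (by fun_prop) (fun t => ?_)
  have := Real.sqrt_nonneg (1 - t)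
  positivity

theorem gs_key (s : ℝ) (h0 : 0 ≤ s) (h1 : s ≤ 1) : 2 * (gs s * rs (gs s * s * gs s)) = 1 := by
  unfold gs rs
  set c := Real.sqrt (1 - s) with hc
  have hc2 : c ^ 2 = 1 - s := Real.sq_sqrt (by linarith)
  have hc0 : 0 ≤ c := Real.sqrt_nonneg _
  have h2 : (0 : ℝ) < 1 + c := by positivity
  have h3 : (1 + c)⁻¹ * s * (1 + c)⁻¹ = (1 - c) / (1 + c) := by
    have : s = (1 - c) * (1 + c) := by linarith
    rw [this]
    field_simp
  have hc1 : c ≤ 1 := by nlinarith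
  rw [h3, abs_of_nonneg (div_nonneg (by linarith) h2.le)]
  have h4 : 1 + (1 - c) / (1 + c) = 2 / (1 + c) := by
    field_simp
    ring
  rw [h4]
  field_simp

theorem kF_surj (x : M) (hx : ‖x‖ ≤ 1) : ∃ b : M, kF b = x := by
  set q := star x * x with hq
  have hqs : IsSelfAdjoint q := sa2 x
  have hgc : ContinuousOn gs (spectrum ℝ q) := gs_cont.continuousOn
  have hid : ContinuousOn (fun t : ℝ => t) (spectrum ℝ q) := continuous_id.continuousOn
  refine ⟨x * cfc gs q, ?_⟩
  have hgs : IsSelfAdjoint (cfc gs q) := cfc_predicate _ _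
  have h1 : star (x * cfc gs q) * (x * cfc gs q) = cfc (fun s => gs s * s * gs s) q := by
    rw [star_mul, hgs.star_eq, cfc_mul (fun t => gs t * t) gs q (hgc.mul hid) hgc,
      cfc_mul gs (fun t => t) q hgc hid, cfc_id' ℝ q hqs, hq]
    noncomm_ring
  unfold kF
  rw [kF_comm, h1]
  have hcomp : Continuous (fun s => gs s * s * gs s) := (gs_cont.mul continuous_id).mul gs_cont
  have h2 : cfc rs (cfc (fun s => gs s * s * gs s) q) = cfc (fun s => rs (gs s * s * gs s)) q := by
    rw [← cfc_comp' rs (fun s => gs s * s * gs s) q rs_cont.continuousOn hcomp.continuousOn]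
  rw [h2, mul_assoc, ← cfc_mul gs (fun s => rs (gs s * s * gs s)) q hgc
    (rs_cont.comp hcomp).continuousOn]
  have h3 : (2 : ℂ) • (x * cfc (fun s => gs s * rs (gs s * s * gs s)) q) =
      x * cfc (fun s => 2 * (gs s * rs (gs s * s * gs s))) q := by
    rw [cfc_const_mul (2 : ℝ) (fun s => gs s * rs (gs s * s * gs s)) q
      (gs_cont.mul (rs_cont.comp hcomp)).continuousOn, mul_smul_comm, two_smul, two_smul]
  rw [h3]
  have h4 : cfc (fun s => 2 * (gs s * rs (gs s * s * gs s))) q = 1 := by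
    rw [← cfc_const_one ℝ q]
    apply cfc_congr
    intro s hs
    apply gs_key
    · exact sp2 x s hs
    · have h5 : ‖s‖ ≤ ‖q‖ * ‖(1 : M)‖ := spectrum.norm_le_norm_mul_of_mem hs
      have h6 : ‖q‖ ≤ 1 := by
        rw [hq, CStarRing.norm_star_mul_self]
        nlinarith [norm_nonneg x]
      have h7 : ‖(1 : M)‖ ≤ 1 := by
        rcases subsingleton_or_nontrivial M with hM | hM
        · have : (1 : M) = 0 := Subsingleton.elim _ _
          rw [this]
          simp
        · exact CStarRing.norm_one.le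
      have h8 : ‖q‖ * ‖(1 : M)‖ ≤ 1 := by
        calc ‖q‖ * ‖(1 : M)‖ ≤ 1 * 1 := mul_le_mul h6 h7 (norm_nonneg _) zero_le_one
          _ = 1 := one_mul 1
      exact (Real.le_norm_self s).trans (h5.trans h8)
  rw [h4, mul_one]

theorem kaplansky' {N : M → ℝ} (hN : TwoNorm N) (A : StarSubalgebra ℂ M)
    (hd : ∀ x : M, ∀ ε > (0 : ℝ), ∃ a ∈ A, N (x - a) < ε) (x : M)
    (hx : ‖x‖ ≤ 1) (ε : ℝ) (hε : 0 < ε) : ∃ a ∈ A, ‖a‖ ≤ 1 ∧ N (x - a) < ε := by
  obtain ⟨y, hyx⟩ := kF_surj x hx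
  obtain ⟨a0, ha0A, hNa0⟩ := hd y (ε / 8) (by positivity)
  have hlip := kF_lip hN y a0
  have hnorm := kF_norm a0
  obtain ⟨δ, hδe⟩ : ∃ δ, δ = ε / 8 := ⟨_, rfl⟩
  have hδ : 0 < δ := by rw [hδe]; positivity
  obtain ⟨b0, hb0A, -, hb0⟩ := kap_poly A (a0 * star a0) (mul_mem ha0A (star_mem ha0A)) (sa1 a0)
    rs rs_cont (δ / (2 * (‖a0‖ + 1))) (by positivity)
  obtain ⟨b, hb⟩ : ∃ b, b = (2 : ℂ) • (b0 * a0) := ⟨_, rfl⟩
  have hbA : b ∈ A := by
    rw [hb]
    exact A.smul_mem (mul_mem hb0A ha0A) _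
  have hbd : ‖kF a0 - b‖ ≤ δ := by
    have e : kF a0 - b = (2 : ℂ) • ((cfc rs (a0 * star a0) - b0) * a0) := by
      rw [hb]
      unfold kF
      rw [← smul_sub, sub_mul]
    have h2 : ‖(2 : ℂ)‖ = 2 := by norm_num
    rw [e, norm_smul, h2]
    have h3 := norm_mul_le (cfc rs (a0 * star a0) - b0) a0
    have h4 : ‖cfc rs (a0 * star a0) - b0‖ * ‖a0‖ ≤ (δ / (2 * (‖a0‖ + 1))) * (‖a0‖ + 1) :=
      mul_le_mul hb0 (by linarith) (norm_nonneg _) (by positivity)
    have h5 : (δ / (2 * (‖a0‖ + 1))) * (‖a0‖ + 1) = δ / 2 := by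
      field_simp
    linarith
  have hbn : ‖b‖ ≤ 1 + δ := by
    have : b = kF a0 - (kF a0 - b) := by abel
    rw [this]
    exact (norm_sub_le _ _).trans (add_le_add hnorm hbd)
  obtain ⟨r, hr⟩ : ∃ r : ℝ, r = 1 / (1 + δ) := ⟨_, rfl⟩
  have hr0 : 0 ≤ r := by rw [hr]; positivity
  have hr1 : r ≤ 1 := by
    rw [hr, div_le_one (by positivity)]; linarith
  have hrd : r * (1 + δ) = 1 := by rw [hr]; field_simp
  refine ⟨(r : ℂ) • b, A.smul_mem hbA _, ?_, ?_⟩
  · rw [norm_smul, Complex.norm_real, Real.norm_eq_abs, abs_of_nonneg hr0]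
    calc r * ‖b‖ ≤ r * (1 + δ) := mul_le_mul_of_nonneg_left hbn hr0
      _ = 1 := hrd
  · have h1 : N (b - (r : ℂ) • b) ≤ δ := by
      have h2 : b - (r : ℂ) • b = ((1 - r : ℝ) : ℂ) • b := by
        push_cast; module
      rw [h2]
      refine (hN.le _).trans ?_
      rw [norm_smul, Complex.norm_real, Real.norm_eq_abs, abs_of_nonneg (by linarith)]
      calc (1 - r) * ‖b‖ ≤ (1 - r) * (1 + δ) := mul_le_mul_of_nonneg_left hbn (by linarith)
        _ = δ := by linarith
    have h3 : N (kF a0 - b) ≤ δ := (hN.le _).trans hbd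
    have h4 : x - (r : ℂ) • b = (kF y - kF a0) + ((kF a0 - b) + (b - (r : ℂ) • b)) := by
      rw [hyx]; abel
    calc N (x - (r : ℂ) • b) ≤ N (kF y - kF a0) + N ((kF a0 - b) + (b - (r : ℂ) • b)) := by
          rw [h4]; exact hN.add _ _
      _ ≤ 4 * N (y - a0) + (N (kF a0 - b) + N (b - (r : ℂ) • b)) :=
          add_le_add hlip (hN.add _ _)
      _ < ε := by
          rw [hδe] at h1 h3
          linarith

end Pool.Agent.Zk94.IG
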