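import Pool.Agent.Zk94.IG.Cont

/-! # Elementarily equivalent existentially closed groups -/

set_option autoImplicit false
set_option linter.unusedVariables false

namespace Pool.Agent.Zk94.IG

open Function
open Pool.Agent.H504R3 (TVN)
open Pool.Agent.H504R3.S
open Pool.Agent.R970.SI
open Pool.Agent.R283.GV
open Pool.Agent.Helper278

theorem sup_close {α β : Type} [Nonempty α] [Nonempty β] {f : α → ℝ} {g : β → ℝ} {C ε : ℝ}
    (hf : ∀ a, |f a| ≤ C) (hg : ∀ b, |g b| ≤ C) (h1 : ∀ a, ∃ b, |f a - g b| ≤ ε)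
    (h2 : ∀ b, ∃ a, |f a - g b| ≤ ε) : |(⨆ a, f a) - ⨆ b, g b| ≤ ε := by
  rw [abs_le]
  constructor
  · have : (⨆ b, g b) ≤ (⨆ a, f a) + ε := by
      refine ciSup_le fun b => ?_
      obtain ⟨a, ha⟩ := h2 b
      have h3 := le_ciSup (f := f) ⟨C, by rintro _ ⟨b, rfl⟩; exact (abs_le.1 (hf b)).2⟩ a
      have h4 := abs_le.1 ha
      linarith
    linarith
  · have : (⨆ a, f a) ≤ (⨆ b, g b) + ε := by
      refine ciSup_le fun a => ?_
      obtain ⟨b, hb⟩ := h1 a
      have h3 := le_ciSup (f := g) ⟨C, by rintro _ ⟨b, rfl⟩; exact (abs_le.1 (hg b)).2⟩ b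
      have h4 := abs_le.1 hb
      linarith
    linarith

theorem inf_close {α β : Type} [Nonempty α] [Nonempty β] {f : α → ℝ} {g : β → ℝ} {C ε : ℝ}
    (hf : ∀ a, |f a| ≤ C) (hg : ∀ b, |g b| ≤ C) (h1 : ∀ a, ∃ b, |f a - g b| ≤ ε)
    (h2 : ∀ b, ∃ a, |f a - g b| ≤ ε) : |(⨅ a, f a) - ⨅ b, g b| ≤ ε := by
  rw [abs_le]
  constructor
  · have : (⨅ b, g b) - ε ≤ ⨅ a, f a := by
      refine le_ciInf fun a => ?_
      obtain ⟨b, hb⟩ := h1 a
      have h3 := ciInf_le (f := g) ⟨-C, by rintro _ ⟨b, rfl⟩; exact (abs_le.1 (hg b)).1⟩ b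
      have h4 := abs_le.1 hb
      linarith
    linarith
  · have : (⨅ a, f a) - ε ≤ ⨅ b, g b := by
      refine le_ciInf fun b => ?_
      obtain ⟨a, ha⟩ := h2 b
      have h3 := ciInf_le (f := f) ⟨-C, by rintro _ ⟨b, rfl⟩; exact (abs_le.1 (hf b)).1⟩ a
      have h4 := abs_le.1 ha
      linarith
    linarith

theorem vals_cons {n : ℕ} (P : PG) (e : Fin 11 → P.G) (x : Fin n → Fin 11 → P.G) :
    vals (n := n + 1) P (Fin.cons e x) = Fin.cons (val P.t e) (vals P x) := by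
  funext i
  refine Fin.cases rfl (fun i => rfl) i

theorem domR_cons {n : ℕ} {P : PG} {x : Fin n → Fin 11 → P.G} {R : ℝ} {r : ℕ} (hx : domR R P x)
    {e : Fin 11 → P.G} (he : (tvn P.G).opNorm (val P.t e) ≤ r) :
    domR (n := n + 1) (max R r) P (Fin.cons e x) := by
  intro i
  refine Fin.cases ?_ (fun i => ?_) i
  · exact he.trans (le_max_right _ _)
  · exact (hx i).trans (le_max_left _ _)

/-- one step of the back-and-forth for the elements of the ball -/
theorem step {n : ℕ} (r : ℕ) (φ : Fm (n + 1)) {R : ℝ} (hR : 0 ≤ R)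
    (ih : CC (n := n + 1) (domR (max R r)) (fun P x => φ.val (str (tvn P.G)) (vals P x)))
    {ε : ℝ} (hε : 0 < ε) : ∃ k, ∀ (P Q : PG) (L : Set (P.G × Q.G)) (x : Fin n → Fin 11 → P.G)
      (y : Fin n → Fin 11 → Q.G), AdmC P Q L x y → EQ k L → domR R P x → domR R Q y →
      ∀ z : (str (tvn P.G)).Ball r, ∃ z' : (str (tvn Q.G)).Ball r,
        |φ.val (str (tvn P.G)) (Fin.cons z.1 (vals P x)) -
          φ.val (str (tvn Q.G)) (Fin.cons z'.1 (vals Q y))| ≤ ε := by
  have hR' : 0 ≤ max R (r : ℝ) := hR.trans (le_max_left _ _)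
  obtain ⟨k1, hk1⟩ := ih (ε / 2) (by positivity)
  obtain ⟨k2, hk2⟩ := Def.normle r
  obtain ⟨δ, hδ, hu⟩ := (good φ).2 (max R r) hR' (ε / 2) (by positivity)
  refine ⟨max k1 k2 + 11, fun P Q L x y h hL hx hy z => ?_⟩
  obtain ⟨e, he1, he2⟩ := dense_ball P.ec P.inf r z.1 z.2 hδ
  obtain ⟨f, hf⟩ := EQ.ext 11 hL e
  have h1 := (hk2 P Q _ e f (Or.inl h.t) (fun l => Or.inr ⟨l, rfl⟩)
    (hf.le (le_max_right _ _))).1 he1
  have h2 := hk1 P Q _ (Fin.cons e x) (Fin.cons f y) (h.cons e f) (hf.le (le_max_left _ _))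
    (domR_cons hx he1) (domR_cons hy h1)
  beta_reduce at h2
  rw [vals_cons, vals_cons] at h2
  refine ⟨⟨val Q.t f, h1⟩, ?_⟩
  have h3 := hu (tvn P.G) (Fin.cons z.1 (vals P x)) (Fin.cons (val P.t e) (vals P x))
    (cons_op hx z) (cons_op hx ⟨val P.t e, he1⟩) (by
      intro i
      refine Fin.cases ?_ (fun i => ?_) i
      · exact he2
      · show (tvn P.G).norm2 (vals P x i - vals P x i) ≤ δ
        rw [norm2_self]
        exact hδ.le)
  have e1 : φ.val (str (tvn P.G)) (Fin.cons z.1 (vals P x)) -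
      φ.val (str (tvn Q.G)) (Fin.cons (val Q.t f) (vals Q y)) =
      (φ.val (str (tvn P.G)) (Fin.cons z.1 (vals P x)) -
        φ.val (str (tvn P.G)) (Fin.cons (val P.t e) (vals P x))) +
      (φ.val (str (tvn P.G)) (Fin.cons (val P.t e) (vals P x)) -
        φ.val (str (tvn Q.G)) (Fin.cons (val Q.t f) (vals Q y))) := by ring
  show |φ.val (str (tvn P.G)) (Fin.cons z.1 (vals P x)) -
      φ.val (str (tvn Q.G)) (Fin.cons (val Q.t f) (vals Q y))| ≤ ε
  rw [e1]
  refine (abs_add_le _ _).trans ?_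
  exact (add_le_add h3 h2).trans (add_halves ε).le

theorem AdmC.swap {n : ℕ} {P Q : PG} {L : Set (P.G × Q.G)} {x : Fin n → Fin 11 → P.G}
    {y : Fin n → Fin 11 → Q.G} (h : AdmC P Q L x y) : AdmC Q P {p : Q.G × P.G | (p.2, p.1) ∈ L} y x :=
  ⟨h.t, fun i l => h.x i l⟩

/-- the values of the formulas depend continuously on the codes -/
theorem main_cont {n : ℕ} (φ : Fm n) : ∀ R : ℝ, 0 ≤ R →
    CC (n := n) (domR R) (fun P x => φ.val (str (tvn P.G)) (vals P x)) := by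
  induction φ with
  | re t =>
    intro R hR
    exact (CC.tau t hR).1
  | im t =>
    intro R hR
    exact (CC.tau t hR).2
  | nrm t =>
    intro R hR
    obtain ⟨C, hC, hb⟩ := term_bound (Tm.mul (Tm.adj t) t) hR
    exact CC.sqrt (CC.tau (Tm.mul (Tm.adj t) t) hR).1 (C := C) (fun P x hx =>
      (Complex.abs_re_le_norm _).trans ((tau_le _ _).trans ((norm2_le_op _ _).trans
        (hb _ _ hx))))
  | @conn n k u φ ih =>
    intro R hR
    choose C hC using fun i => (good (φ i)).1 R hR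
    exact CC.conn u (fun i => ih i R hR) C (fun i P x hx => hC i _ _ hx)
  | @sup n r φ ih =>
    intro R hR ε hε
    have hR' : 0 ≤ max R (r : ℝ) := hR.trans (le_max_left _ _)
    obtain ⟨C, hC⟩ := (good φ).1 (max R r) hR'
    obtain ⟨k, hk⟩ := step r φ hR (ih _ hR') hε
    refine ⟨k, fun P Q L x y h hL hx hy => ?_⟩
    have := ball_nonempty (tvn P.G) r
    have := ball_nonempty (tvn Q.G) r
    refine sup_close (α := (str (tvn P.G)).Ball r) (β := (str (tvn Q.G)).Ball r) (C := C)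
      (fun z => hC _ _ (cons_op hx z)) (fun z => hC _ _ (cons_op hy z))
      (hk P Q L x y h hL hx hy) (fun z => ?_)
    obtain ⟨z', hz'⟩ := hk Q P _ y x h.swap hL.swap hy hx z
    exact ⟨z', by rw [abs_sub_comm]; exact hz'⟩
  | @inf n r φ ih =>
    intro R hR ε hε
    have hR' : 0 ≤ max R (r : ℝ) := hR.trans (le_max_left _ _)
    obtain ⟨C, hC⟩ := (good φ).1 (max R r) hR'
    obtain ⟨k, hk⟩ := step r φ hR (ih _ hR') hε
    refine ⟨k, fun P Q L x y h hL hx hy => ?_⟩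
    have := ball_nonempty (tvn P.G) r
    have := ball_nonempty (tvn Q.G) r
    refine inf_close (α := (str (tvn P.G)).Ball r) (β := (str (tvn Q.G)).Ball r) (C := C)
      (fun z => hC _ _ (cons_op hx z)) (fun z => hC _ _ (cons_op hy z))
      (hk P Q L x y h hL hx hy) (fun z => ?_)
    obtain ⟨z', hz'⟩ := hk Q P _ y x h.swap hL.swap hy hx z
    exact ⟨z', by rw [abs_sub_comm]; exact hz'⟩

/-- having infinite order is invariant -/
theorem inf_transfer {G H : Type} [Group G] [Group H] (hG : EC G) {t : G} {s : H}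
    {L : Set (G × H)} (hL : EQ 6 L) (hts : (t, s) ∈ L) (ht : ¬ IsOfFinOrder t) :
    ¬ IsOfFinOrder s := by
  obtain ⟨⟨a, ha⟩, z, hz1, hz2⟩ := (hG.inf_iff t).1 ht
  obtain ⟨b2, hb2⟩ := (show EQ (5 + 1) L from hL).1 (t ^ 2)
  obtain ⟨b, hb⟩ := (show EQ (4 + 1) _ from hb2).1 a
  obtain ⟨b', hb'⟩ := (show EQ (3 + 1) _ from hb).1 (a * t)
  obtain ⟨w, hw⟩ := (show EQ (2 + 1) _ from hb').1 z
  obtain ⟨w', hw'⟩ := (show EQ (1 + 1) _ from hw).1 (z * t ^ 2)
  obtain ⟨v, hv⟩ := (show EQ (0 + 1) _ from hw').1 (z * t)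
  have h0 := hv.zero
  set L' : Set (G × H) := insert (z * t, v) (insert (z * t ^ 2, w') (insert (z, w)
    (insert (a * t, b') (insert (a, b) (insert (t ^ 2, b2) L))))) with hL'
  have m1 : ((t, s) : G × H) ∈ L' := by simp [hL', hts]
  have m2 : ((t ^ 2, b2) : G × H) ∈ L' := by simp [hL']
  have m3 : ((a, b) : G × H) ∈ L' := by simp [hL']
  have m4 : ((a * t, b') : G × H) ∈ L' := by simp [hL']
  have m5 : ((z, w) : G × H) ∈ L' := by simp [hL']
  have m6 : ((z * t ^ 2, w') : G × H) ∈ L' := by simp [hL']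
  have m7 : ((z * t, v) : G × H) ∈ L' := by simp [hL']
  have e1 : s * s = b2 := ((h0 _ m1 _ m1).2 _ m2).1 (pow_two t).symm
  have e2 : b * s = b' := ((h0 _ m3 _ m1).2 _ m4).1 rfl
  have e3 : b2 * b = b' := ((h0 _ m2 _ m3).2 _ m4).1 (by
    show t ^ 2 * a = a * t
    rw [← ha]
    group)
  have e4 : w * b2 = w' := ((h0 _ m5 _ m2).2 _ m6).1 rfl
  have e5 : b2 * w = w' := ((h0 _ m2 _ m5).2 _ m6).1 hz1.symm
  have e6 : w * s = v := ((h0 _ m5 _ m1).2 _ m7).1 rfl
  have e7 : s * w ≠ v := fun h => hz2 (((h0 _ m1 _ m5).2 _ m7).2 h).symm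
  refine inf_of (s := b) (z := w) ?_ ?_ ?_
  · rw [pow_two, e1, e2, ← e3]
    group
  · rw [pow_two, e1, e4, e5]
  · rw [e6]
    exact e7.symm

/-- The group von Neumann algebras of existentially closed groups which are back-and-forth
equivalent to all finite depths are elementarily equivalent. -/
theorem elemEq_of_EQ {G H : Type} [Group G] [Group H] (hG : EC G) (hH : EC H)
    (h : ∀ k, EQ k (∅ : Set (G × H))) : (groupVN G).ElemEq (groupVN H) := by
  intro φ
  have key : ∀ ε : ℝ, 0 < ε → |φ.val (groupVN G) Fin.elim0 - φ.val (groupVN H) Fin.elim0| ≤ ε := by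
    intro ε hε
    obtain ⟨k, hk⟩ := main_cont φ 0 le_rfl ε hε
    obtain ⟨t, ht⟩ := hG.exists_inf
    obtain ⟨s, hs⟩ := (h (max k 6 + 1)).1 t
    have hs' : ¬ IsOfFinOrder s := inf_transfer hG (hs.le (le_max_right _ _)) (Or.inl rfl) ht
    let P : PG := ⟨G, hG, t, ht⟩
    let Q : PG := ⟨H, hH, s, hs'⟩
    have h1 := hk P Q _ Fin.elim0 Fin.elim0 ⟨Or.inl rfl, fun i => i.elim0⟩
      (hs.le (le_max_left _ _)) (fun i => i.elim0) (fun i => i.elim0)
    have e1 : vals P (Fin.elim0 : Fin 0 → Fin 11 → P.G) = Fin.elim0 := by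
      funext i
      exact i.elim0
    have e2 : vals Q (Fin.elim0 : Fin 0 → Fin 11 → Q.G) = Fin.elim0 := by
      funext i
      exact i.elim0
    beta_reduce at h1
    rw [e1, e2] at h1
    exact h1
  by_contra hne
  have h1 : 0 < |φ.val (groupVN G) Fin.elim0 - φ.val (groupVN H) Fin.elim0| :=
    abs_pos.2 (sub_ne_zero.2 hne)
  have h2 := key (|φ.val (groupVN G) Fin.elim0 - φ.val (groupVN H) Fin.elim0| / 2) (by positivity)
  linarith

end Pool.Agent.Zk94.IG
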