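import Mathlib

/-! # Overgroups: conjugating elements of infinite order, centralizers, coding of sequences -/

set_option autoImplicit false

namespace Pool.Agent.Zk94.IG

open Function

variable {G : Type} [Group G]

theorem zpow_inj {t : G} (ht : ¬ IsOfFinOrder t) : Injective (zpowersHom G t) := by
  intro m n h
  have h1 : t ^ (Multiplicative.toAdd m) = t ^ (Multiplicative.toAdd n) := h
  exact Multiplicative.toAdd.injective (injective_zpow_iff_not_isOfFinOrder.2 ht h1)

theorem over_conj {t a : G} (ht : ¬ IsOfFinOrder t) (ha : ¬ IsOfFinOrder a) :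
    ∃ (K : Type) (_ : Group K) (i : G →* K) (c : K), Injective i ∧ c * i t * c⁻¹ = i a := by
  let e1 := MonoidHom.ofInjective (zpow_inj ht)
  let e2 := MonoidHom.ofInjective (zpow_inj ha)
  let φ : (zpowersHom G t).range ≃* (zpowersHom G a).range := e1.symm.trans e2
  refine ⟨HNNExtension G _ _ φ, inferInstance, HNNExtension.of, HNNExtension.t,
    HNNExtension.of_injective _, ?_⟩
  have h1 : e1 (Multiplicative.ofAdd 1) = ⟨t, ⟨Multiplicative.ofAdd 1, by simp⟩⟩ := by
    apply Subtype.ext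
    show (zpowersHom G t) (Multiplicative.ofAdd 1) = t
    simp
  have h2 : ((e2 (Multiplicative.ofAdd 1) : (zpowersHom G a).range) : G) = a := by
    show (zpowersHom G a) (Multiplicative.ofAdd 1) = a
    simp
  have h3 := HNNExtension.t_mul_of (φ := φ) ⟨t, ⟨Multiplicative.ofAdd 1, by simp⟩⟩
  have h4 : ((φ ⟨t, ⟨Multiplicative.ofAdd 1, by simp⟩⟩ : (zpowersHom G a).range) : G) = a := by
    show ((e2 (e1.symm ⟨t, ⟨Multiplicative.ofAdd 1, by simp⟩⟩) : (zpowersHom G a).range) : G) = a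
    rw [← h1, MulEquiv.symm_apply_apply, h2]
  rw [h4] at h3
  have h5 : (HNNExtension.t : HNNExtension G _ _ φ) * HNNExtension.of t = HNNExtension.of a *
    HNNExtension.t := h3
  rw [h5]
  group

/-- the action on the cosets, twice -/
def dbl (A : Subgroup G) : G →* Equiv.Perm ((G ⧸ A) × Bool) where
  toFun g := (MulAction.toPerm g).prodCongr (Equiv.refl Bool)
  map_one' := by
    ext ⟨x, b⟩ <;> simp
  map_mul' g h := by
    ext ⟨x, b⟩ <;> simp [mul_smul]

theorem over_cent (A : Subgroup G) : ∃ (K : Type) (_ : Group K) (i : G →* K) (z : K),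
    Injective i ∧ ∀ g, z * i g = i g * z ↔ g ∈ A := by
  classical
  let p : (G ⧸ A) × Bool := ((1 : G), false)
  let q : (G ⧸ A) × Bool := ((1 : G), true)
  refine ⟨G × Equiv.Perm ((G ⧸ A) × Bool), inferInstance, (MonoidHom.id G).prod (dbl A),
    (1, Equiv.swap p q), fun a b h => (Prod.ext_iff.1 h).1, fun g => ?_⟩
  have h1 : ((1, Equiv.swap p q) : G × Equiv.Perm ((G ⧸ A) × Bool)) *
      ((MonoidHom.id G).prod (dbl A)) g = ((MonoidHom.id G).prod (dbl A)) g * (1, Equiv.swap p q) ↔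
      Equiv.swap p q * dbl A g = dbl A g * Equiv.swap p q := by
    simp [Prod.ext_iff]
  rw [h1]
  have h2 : ∀ b : Bool, dbl A g (((1 : G) : G ⧸ A), b) = ((g : G ⧸ A), b) := by
    intro b
    simp [dbl]
  constructor
  · intro h
    have h3 := congrArg (fun σ : Equiv.Perm ((G ⧸ A) × Bool) => σ p) h
    simp only [Equiv.Perm.mul_apply, Equiv.swap_apply_left] at h3
    rw [h2, h2] at h3
    by_contra hg
    have hne : (g : G ⧸ A) ≠ ((1 : G) : G ⧸ A) := by
      intro e
      apply hg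
      have := (QuotientGroup.eq.1 e.symm)
      simpa using this
    rw [Equiv.swap_apply_of_ne_of_ne] at h3
    · exact Bool.false_ne_true (Prod.ext_iff.1 h3).2
    · intro e
      exact hne (Prod.ext_iff.1 e).1
    · intro e
      exact hne (Prod.ext_iff.1 e).1
  · intro hg
    have h3 : (g : G ⧸ A) = ((1 : G) : G ⧸ A) := (QuotientGroup.eq.2 (by simpa using hg)).symm
    have h4 : ∀ b : Bool, dbl A g (((1 : G) : G ⧸ A), b) = (((1 : G) : G ⧸ A), b) := by
      intro b
      rw [h2, h3]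
    have h5 := Equiv.swap_apply_apply (dbl A g) p q
    have h6 : dbl A g p = p := h4 false
    have h7 : dbl A g q = q := h4 true
    rw [h6, h7] at h5
    conv_lhs => rw [h5]
    group

/-! ### Coding of sequences -/

section seq

/-- the shift of the first coordinate -/
def shA (G : Type) : Equiv.Perm (ℤ × ℤ × G) := (Equiv.addRight (1 : ℤ)).prodCongr (Equiv.refl _)

omit [Group G] in
theorem shA_zpow (n : ℤ) (p : ℤ × ℤ × G) : (shA G ^ n) p = (p.1 + n, p.2) := by
  have h1 : ∀ (n : ℕ) (p : ℤ × ℤ × G), (shA G ^ n) p = (p.1 + n, p.2) := by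
    intro n
    induction n with
    | zero => intro p; simp
    | succ n ih =>
      intro p
      rw [pow_succ, Equiv.Perm.mul_apply, ih]
      simp [shA]
      ring
  rcases n with n | n
  · simpa using h1 n p
  · rw [zpow_negSucc, Equiv.Perm.inv_eq_iff_eq, h1]
    ext <;> simp
    omega

/-- multiplication by `h m` at the points with `j ≥ 0` -/
def shB (h : ℤ → G) : Equiv.Perm (ℤ × ℤ × G) where
  toFun p := (p.1, p.2.1, if 0 ≤ p.2.1 then h p.1 * p.2.2 else p.2.2)
  invFun p := (p.1, p.2.1, if 0 ≤ p.2.1 then (h p.1)⁻¹ * p.2.2 else p.2.2)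
  left_inv p := by
    obtain ⟨m, j, g⟩ := p
    by_cases hj : 0 ≤ j <;> simp [hj]
  right_inv p := by
    obtain ⟨m, j, g⟩ := p
    by_cases hj : 0 ≤ j <;> simp [hj]

/-- the shift of the row `0` in the second coordinate -/
def shS (G : Type) : Equiv.Perm (ℤ × ℤ × G) where
  toFun p := (p.1, if p.1 = 0 then p.2.1 + 1 else p.2.1, p.2.2)
  invFun p := (p.1, if p.1 = 0 then p.2.1 - 1 else p.2.1, p.2.2)
  left_inv p := by
    obtain ⟨m, j, g⟩ := p
    by_cases hj : m = 0 <;> simp [hj]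
  right_inv p := by
    obtain ⟨m, j, g⟩ := p
    by_cases hj : m = 0 <;> simp [hj]

/-- the embedding of `G` -/
def emb0 (G : Type) [Group G] : G →* Equiv.Perm (ℤ × ℤ × G) where
  toFun x :=
    { toFun := fun p => (p.1, p.2.1, if p.1 = 0 ∧ p.2.1 = 0 then x * p.2.2 else p.2.2)
      invFun := fun p => (p.1, p.2.1, if p.1 = 0 ∧ p.2.1 = 0 then x⁻¹ * p.2.2 else p.2.2)
      left_inv := fun p => by
        obtain ⟨m, j, g⟩ := p
        by_cases hj : m = 0 ∧ j = 0 <;> simp [hj]
      right_inv := fun p => by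
        obtain ⟨m, j, g⟩ := p
        by_cases hj : m = 0 ∧ j = 0 <;> simp [hj] }
  map_one' := by
    ext ⟨m, j, g⟩ <;> simp
  map_mul' x y := by
    ext p
    · simp
    · simp
    · obtain ⟨m, j, g⟩ := p
      by_cases hj : m = 0 ∧ j = 0 <;> simp [hj, mul_assoc]

theorem emb0_inj : Injective (emb0 G) := by
  intro x y h
  have h1 := congrArg (fun σ : Equiv.Perm (ℤ × ℤ × G) => (σ (0, 0, 1)).2.2) h
  simpa [emb0] using h1

theorem shA_inf : ¬ IsOfFinOrder (shA G) := by
  rw [isOfFinOrder_iff_pow_eq_one]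
  rintro ⟨n, hn, h⟩
  have h1 := shA_zpow (G := G) (n : ℤ) (0, 0, 1)
  rw [zpow_natCast, h] at h1
  have h2 := congrArg (fun p : ℤ × ℤ × G => p.1) h1
  simp at h2
  omega

/-- the coding of sequences -/
def cod (a b s : G) (n : ℤ) : G :=
  ((a ^ n)⁻¹ * b * a ^ n) * s * ((a ^ n)⁻¹ * b * a ^ n)⁻¹ * s⁻¹

theorem cod_model (h : ℤ → G) (n : ℤ) : cod (shA G) (shB h) (shS G) n = emb0 G (h n) := by
  unfold cod
  have hB : ∀ p : ℤ × ℤ × G, ((shA G ^ n)⁻¹ * shB h * shA G ^ n) p =
      (p.1, p.2.1, if 0 ≤ p.2.1 then h (p.1 + n) * p.2.2 else p.2.2) := by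
    intro p
    rw [Equiv.Perm.mul_apply, Equiv.Perm.mul_apply, ← zpow_neg, shA_zpow, shA_zpow]
    simp [shB]
  have hBi : ∀ p : ℤ × ℤ × G, ((shA G ^ n)⁻¹ * shB h * shA G ^ n)⁻¹ p =
      (p.1, p.2.1, if 0 ≤ p.2.1 then (h (p.1 + n))⁻¹ * p.2.2 else p.2.2) := by
    intro p
    rw [Equiv.Perm.inv_eq_iff_eq, hB]
    obtain ⟨m, j, g⟩ := p
    by_cases hj : 0 ≤ j <;> simp [hj]
  apply Equiv.ext
  rintro ⟨m, j, g⟩
  rw [Equiv.Perm.mul_apply, Equiv.Perm.mul_apply, Equiv.Perm.mul_apply, hBi, hB]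
  have hs : ∀ p : ℤ × ℤ × G, (shS G)⁻¹ p = (p.1, if p.1 = 0 then p.2.1 - 1 else p.2.1, p.2.2) :=
    fun p => rfl
  have hs' : ∀ p : ℤ × ℤ × G, (shS G) p = (p.1, if p.1 = 0 then p.2.1 + 1 else p.2.1, p.2.2) :=
    fun p => rfl
  rw [hs, hs']
  show _ = (m, j, if m = 0 ∧ j = 0 then h n * g else g)
  by_cases hm : m = 0
  · subst hm
    by_cases hj : j = 0
    · subst hj
      simp
    · by_cases hj0 : 0 ≤ j
      · simp [hj, hj0]
        intro h1
        omega
      · simp [hj, hj0]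
        intro h1
        omega
  · by_cases hj0 : 0 ≤ j <;> simp [hm, hj0]

theorem map_cod {K : Type} [Group K] (f : G →* K) (a b s : G) (n : ℤ) :
    f (cod a b s n) = cod (f a) (f b) (f s) n := by
  simp [cod]

theorem over_seq {t : G} (ht : ¬ IsOfFinOrder t) (h : ℤ → G) :
    ∃ (K : Type) (_ : Group K) (i : G →* K) (c b s : K), Injective i ∧
      ∀ n : ℤ, i (h n) = cod (c * i t * c⁻¹) b s n := by
  have ht' : ¬ IsOfFinOrder (emb0 G t) := by
    rwa [(emb0_inj (G := G)).isOfFinOrder_iff]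
  obtain ⟨K, iK, i, c, hi, hc⟩ := over_conj ht' (shA_inf (G := G))
  refine ⟨K, iK, i.comp (emb0 G), c, i (shB h), i (shS G), hi.comp emb0_inj, fun n => ?_⟩
  show i (emb0 G (h n)) = cod (c * i (emb0 G t) * c⁻¹) _ _ n
  rw [hc, ← map_cod, cod_model]

end seq

end Pool.Agent.Zk94.IG
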