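import Pool.Agent.Zk94.IG.EF

/-! # Bounded sums of definable functions -/

set_option autoImplicit false
set_option linter.unusedVariables false

namespace Pool.Agent.Zk94.IG

open Function

variable {α β : Type}

/-- the elements of the sequence with the code `(c, b, s)` -/
def sq {G : Type} [Group G] (t c b s : G) (n : ℤ) : G := cod (c * t * c⁻¹) b s n

theorem sq_eq {G : Type} [Group G] (t c b s : G) (n : ℤ) : sq t c b s n =
    ((c * t ^ n * c⁻¹)⁻¹ * b * (c * t ^ n * c⁻¹)) * s *
      ((c * t ^ n * c⁻¹)⁻¹ * b * (c * t ^ n * c⁻¹))⁻¹ * s⁻¹ := by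
  unfold sq cod
  rw [conj_zpow]

theorem DefF.sq {F : ∀ P : PG, (α → P.G) → ℤ} {c b s : ∀ P : PG, (α → P.G) → P.G}
    (hc : DefF c) (hb : DefF b) (hs : DefF s) (hF : DefZ F) :
    DefF (fun P x => IG.sq P.t (c P x) (b P x) (s P x) (F P x)) := by
  have h1 := (hc.mul hF).mul hc.inv
  have h2 := (h1.inv.mul hb).mul h1
  exact DefF.congr (((h2.mul hs).mul h2.inv).mul hs.inv) (fun P x => sq_eq _ _ _ _ _)

/-- the bounded sum -/
noncomputable def bsum (F : ℤ → ℤ) (k : ℤ) : ℤ := ∑ j ∈ Finset.range k.toNat, F (j : ℕ)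

theorem DefZ.bsum {F : ∀ P : PG, (α → P.G) → ℤ → ℤ} {K : ∀ P : PG, (α → P.G) → ℤ}
    (hF : DefZ (α := Option α) (fun P x => F P (fun i => x (some i)) (IG.lg P.t (x none))))
    (hK : DefZ K) : DefZ (fun P x => IG.bsum (F P x) (K P x)) := by
  refine DefF.of_graph (R := fun P x y => (K P x < 0 ∧ y = 1) ∨
    (0 ≤ K P x ∧ ∃ c b s, IG.sq P.t c b s 0 = 1 ∧ (∀ j : ℤ, (0 ≤ j ∧ j < K P x) →
      IG.sq P.t c b s (j + 1) = IG.sq P.t c b s j * P.t ^ (F P x j)) ∧
      IG.sq P.t c b s (K P x) = y)) ?_ (fun P x y => ?_)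
  · have hK1 : DefZ (fun P (x : Option α → P.G) => K P (fun i => x (some i))) := DefZ.rn hK some
    refine ((Def.ltZ hK1 DefZ.zero).and (Def.eq (DefF.var none) DefF.one)).or
      ((Def.leZ DefZ.zero hK1).and (Def.ex (Def.ex (Def.ex ?_))))
    have hK2 : DefZ (fun P (x : Option (Option (Option (Option α))) → P.G) =>
      K P (fun i => x (some (some (some (some i)))))) := DefZ.rn hK _
    refine (Def.eq (DefF.sq (DefF.var _) (DefF.var _) (DefF.var _) DefZ.zero) DefF.one).and
      (Def.and (Def.allZ ?_) (Def.eq (DefF.sq (DefF.var _) (DefF.var _) (DefF.var _) hK2)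
        (DefF.var _)))
    have hK3 : DefZ (fun P (x : Option (Option (Option (Option (Option α)))) → P.G) =>
      K P (fun i => x (some (some (some (some (some i))))))) := DefZ.rn hK _
    have hj : DefZ (fun P (x : Option (Option (Option (Option (Option α)))) → P.G) =>
      IG.lg P.t (x none)) := DefZ.lg (DefF.var _)
    refine ((Def.leZ DefZ.zero hj).and (Def.ltZ hj hK3)).imp (Def.eq
      (DefF.sq (DefF.var _) (DefF.var _) (DefF.var _) (hj.add DefZ.one))
      ((DefF.sq (DefF.var _) (DefF.var _) (DefF.var _) hj).mul ?_))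
    exact DefZ.rn hF (fun o : Option α => o.elim none (fun i => some (some (some (some (some i))))))
  · by_cases h0 : K P x < 0
    · have h1 : (K P x).toNat = 0 := by omega
      have h2 : ¬ (0 ≤ K P x) := by omega
      simp [IG.bsum, h1, h0, h2]
    · have h1 : 0 ≤ K P x := by omega
      simp only [h0, false_and, false_or, h1, true_and]
      obtain ⟨k, hk⟩ := Int.eq_ofNat_of_zero_le h1
      have hk' : (K P x).toNat = k := by omega
      have key : ∀ c b s : P.G, IG.sq P.t c b s 0 = 1 → (∀ j : ℤ, (0 ≤ j ∧ j < K P x) →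
          IG.sq P.t c b s (j + 1) = IG.sq P.t c b s j * P.t ^ (F P x j)) →
          ∀ m : ℕ, m ≤ k → IG.sq P.t c b s (m : ℤ) =
            P.t ^ (∑ j ∈ Finset.range m, F P x (j : ℕ)) := by
        intro c b s h2 h3 m
        induction m with
        | zero =>
          intro _
          simpa using h2
        | succ m ih =>
          intro hm
          rw [Finset.sum_range_succ, zpow_add, ← ih (by omega)]
          have := h3 (m : ℤ) ⟨by omega, by omega⟩
          push_cast
          exact this
      constructor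
      · rintro rfl
        obtain ⟨c, b, s, hs⟩ := P.ec.seq P.inf (k + 1)
          (fun j => P.t ^ (∑ i ∈ Finset.range j.toNat, F P x (i : ℕ)))
        refine ⟨c, b, s, ?_, fun j hj => ?_, ?_⟩
        · have := hs 0 le_rfl (by omega)
          simpa [IG.sq] using this
        · have e1 := hs j hj.1 (by push_cast; omega)
          have e2 := hs (j + 1) (by omega) (by push_cast; omega)
          unfold IG.sq
          rw [e1, e2]
          obtain ⟨m, rfl⟩ := Int.eq_ofNat_of_zero_le hj.1
          have e3 : ((m : ℤ) + 1).toNat = m + 1 := by omega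
          have e4 : ((m : ℤ)).toNat = m := by omega
          rw [e3, e4, Finset.sum_range_succ, zpow_add]
        · have e1 := hs (K P x) h1 (by push_cast; omega)
          exact e1
      · rintro ⟨c, b, s, h2, h3, h4⟩
        rw [← h4]
        have := key c b s h2 h3 k le_rfl
        unfold IG.bsum
        rw [hk', hk]
        exact this

end Pool.Agent.Zk94.IG
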