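import Pool.Agent.R283.GV.AP
import Pool.Agent.Helper278.CEStmt
import Pool.Agent.Zk94.IG.Kap
import Pool.Agent.Zk94.IG.Code

/-! # The elements of `L(G)` given by codes -/

set_option autoImplicit false
set_option linter.unusedVariables false

namespace Pool.Agent.Zk94.IG

open Function
open Pool.Agent.H667R2.FG (Ell Op permOp lam rho delta LG EltG tau)
open Pool.Agent.H667R2.FG.TL2 (delta_apply norm_delta inner_delta lam_delta lam_mul lam_one
  star_lam lam_mem)
open Pool.Agent.H504R3 (TVN)
open Pool.Agent.H504R3.S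
open Pool.Agent.R970.SI
open Pool.Agent.R283.GV
open Pool.Agent.Helper278

variable {G : Type} [Group G]

/-- the canonical unitary -/
noncomputable def lamE (g : G) : (tvn G).E := ⟨lam g, lam_mem g⟩

theorem lamE_mul (g h : G) : lamE (g * h) = lamE g * lamE h := Subtype.ext (lam_mul g h)

theorem lamE_one : lamE (1 : G) = 1 := Subtype.ext lam_one

theorem star_lamE (g : G) : star (lamE g) = lamE g⁻¹ := Subtype.ext (star_lam g)

theorem tau_lamE (g : G) : (tvn G).τ (lamE g) = open Classical in if g = 1 then 1 else 0 := by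
  classical
  show (lam g (delta 1)) 1 = _
  rw [lam_delta, delta_apply, mul_one]
  simp only [eq_comm]

theorem op_lamE (g : G) : (tvn G).opNorm (lamE g) ≤ 1 := by
  have h1 : star (lam g) * lam g = 1 := by
    rw [star_lam, ← lam_mul, inv_mul_cancel, lam_one]
  have h2 := CStarRing.norm_star_mul_self (x := lam g)
  rw [h1] at h2
  have h3 : ‖(1 : Op G)‖ ≤ 1 := ContinuousLinearMap.norm_id_le
  show ‖lam g‖ ≤ 1
  nlinarith [norm_nonneg (lam g)]

/-- the element of `L(G)` with the code `e` -/
noncomputable def val (t : G) (e : Fin 11 → G) : (tvn G).E :=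
  ((cN t e : ℂ)⁻¹) • ∑ j ∈ Finset.range (ck t e).toNat,
    ((ca t e j : ℂ) + (cb t e j : ℂ) * Complex.I) • lamE (cg t e j)

/-- the value of a word -/
noncomputable def wv (T : TVN) {n : ℕ} (X : Fin n → T.E) : List (Fin n × Bool) → T.E
  | [] => 1
  | (i, b) :: w => (if b then X i else star (X i)) * wv T X w

theorem num_true {n : ℕ} (t : G) (x : Fin n → Fin 11 → G) (i : Fin n) (w : List (Fin n × Bool))
    (h : G) : num t x ((i, true) :: w) h =
      (bsum (fun j => ca t (x i) j * (num t x w (h * cg t (x i) j)).1 -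
          cb t (x i) j * (num t x w (h * cg t (x i) j)).2) (ck t (x i)),
        bsum (fun j => ca t (x i) j * (num t x w (h * cg t (x i) j)).2 +
          cb t (x i) j * (num t x w (h * cg t (x i) j)).1) (ck t (x i))) := rfl

theorem num_false {n : ℕ} (t : G) (x : Fin n → Fin 11 → G) (i : Fin n) (w : List (Fin n × Bool))
    (h : G) : num t x ((i, false) :: w) h =
      (bsum (fun j => ca t (x i) j * (num t x w (h * (cg t (x i) j)⁻¹)).1 +
          cb t (x i) j * (num t x w (h * (cg t (x i) j)⁻¹)).2) (ck t (x i)),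
        bsum (fun j => ca t (x i) j * (num t x w (h * (cg t (x i) j)⁻¹)).2 -
          cb t (x i) j * (num t x w (h * (cg t (x i) j)⁻¹)).1) (ck t (x i))) := rfl

theorem den_cons {n : ℕ} (t : G) (x : Fin n → Fin 11 → G) (p : Fin n × Bool)
    (w : List (Fin n × Bool)) : den t x (p :: w) = cN t (x p.1) * den t x w := rfl

theorem bsum_cast (F : ℤ → ℤ) (k : ℤ) : ((bsum F k : ℤ) : ℂ) =
    ∑ j ∈ Finset.range k.toNat, (F (j : ℕ) : ℂ) := by
  unfold bsum
  rw [Int.cast_sum]

theorem mom {n : ℕ} (t : G) (x : Fin n → Fin 11 → G) (w : List (Fin n × Bool)) : ∀ h : G,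
    (tvn G).τ (lamE h * wv (tvn G) (fun i => val t (x i)) w) =
      (((num t x w h).1 : ℂ) + ((num t x w h).2 : ℂ) * Complex.I) / (den t x w : ℂ) := by
  classical
  induction w with
  | nil =>
    intro h
    show (tvn G).τ (lamE h * 1) = _
    rw [mul_one, tau_lamE]
    by_cases hh : h = 1 <;> simp [num, den, hh]
  | cons p w ih =>
    intro h
    obtain ⟨i, b⟩ := p
    have hD : (den t x w : ℂ) ≠ 0 := by
      exact_mod_cast (den_pos t x w).ne'
    have hN : (cN t (x i) : ℂ) ≠ 0 := by
      exact_mod_cast (cN_pos t (x i)).ne'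
    cases b with
    | true =>
      have e1 : lamE h * wv (tvn G) (fun i => val t (x i)) ((i, true) :: w) =
          ((cN t (x i) : ℂ)⁻¹) • ∑ j ∈ Finset.range (ck t (x i)).toNat,
            ((ca t (x i) j : ℂ) + (cb t (x i) j : ℂ) * Complex.I) •
              (lamE (h * cg t (x i) j) * wv (tvn G) (fun i => val t (x i)) w) := by
        show lamE h * (val t (x i) * wv (tvn G) (fun i => val t (x i)) w) = _
        unfold val
        rw [smul_mul_assoc, mul_smul_comm, Finset.sum_mul, Finset.mul_sum]
        congr 1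
        refine Finset.sum_congr rfl fun j _ => ?_
        rw [smul_mul_assoc, mul_smul_comm, ← mul_assoc, ← lamE_mul]
      rw [e1, map_smul, map_sum]
      have e2 : ∀ j ∈ Finset.range (ck t (x i)).toNat,
          (tvn G).τ (((ca t (x i) j : ℂ) + (cb t (x i) j : ℂ) * Complex.I) •
              (lamE (h * cg t (x i) j) * wv (tvn G) (fun i => val t (x i)) w)) =
          (((ca t (x i) j * (num t x w (h * cg t (x i) j)).1 -
            cb t (x i) j * (num t x w (h * cg t (x i) j)).2 : ℤ) : ℂ) +
           ((ca t (x i) j * (num t x w (h * cg t (x i) j)).2 +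
            cb t (x i) j * (num t x w (h * cg t (x i) j)).1 : ℤ) : ℂ) * Complex.I) /
              (den t x w : ℂ) := by
        intro j _
        rw [map_smul, ih, smul_eq_mul, mul_div_assoc']
        congr 1
        push_cast
        ring_nf
        rw [Complex.I_sq]
        ring
      rw [Finset.sum_congr rfl e2, ← Finset.sum_div, smul_eq_mul]
      rw [num_true, den_cons, bsum_cast, bsum_cast, Finset.sum_add_distrib, ← Finset.sum_mul,
        Int.cast_mul, ← div_div, mul_div_assoc', inv_mul_eq_div, div_right_comm]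
    | false =>
      have e0 : star (val t (x i)) = ((cN t (x i) : ℂ)⁻¹) •
          ∑ j ∈ Finset.range (ck t (x i)).toNat,
            ((ca t (x i) j : ℂ) - (cb t (x i) j : ℂ) * Complex.I) • lamE (cg t (x i) j)⁻¹ := by
        unfold val
        rw [star_smul, star_sum]
        congr 1
        · rw [star_inv₀]
          simp
        · refine Finset.sum_congr rfl fun j _ => ?_
          rw [star_smul, star_lamE]
          congr 1
          simp [sub_eq_add_neg]
      have e1 : lamE h * wv (tvn G) (fun i => val t (x i)) ((i, false) :: w) =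
          ((cN t (x i) : ℂ)⁻¹) • ∑ j ∈ Finset.range (ck t (x i)).toNat,
            ((ca t (x i) j : ℂ) - (cb t (x i) j : ℂ) * Complex.I) •
              (lamE (h * (cg t (x i) j)⁻¹) * wv (tvn G) (fun i => val t (x i)) w) := by
        show lamE h * (star (val t (x i)) * wv (tvn G) (fun i => val t (x i)) w) = _
        rw [e0, smul_mul_assoc, mul_smul_comm, Finset.sum_mul, Finset.mul_sum]
        congr 1
        refine Finset.sum_congr rfl fun j _ => ?_
        rw [smul_mul_assoc, mul_smul_comm, ← mul_assoc, ← lamE_mul]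
      rw [e1, map_smul, map_sum]
      have e2 : ∀ j ∈ Finset.range (ck t (x i)).toNat,
          (tvn G).τ (((ca t (x i) j : ℂ) - (cb t (x i) j : ℂ) * Complex.I) •
              (lamE (h * (cg t (x i) j)⁻¹) * wv (tvn G) (fun i => val t (x i)) w)) =
          (((ca t (x i) j * (num t x w (h * (cg t (x i) j)⁻¹)).1 +
            cb t (x i) j * (num t x w (h * (cg t (x i) j)⁻¹)).2 : ℤ) : ℂ) +
           ((ca t (x i) j * (num t x w (h * (cg t (x i) j)⁻¹)).2 -
            cb t (x i) j * (num t x w (h * (cg t (x i) j)⁻¹)).1 : ℤ) : ℂ) * Complex.I) /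
              (den t x w : ℂ) := by
        intro j _
        rw [map_smul, ih, smul_eq_mul, mul_div_assoc']
        congr 1
        push_cast
        ring_nf
        rw [Complex.I_sq]
        ring
      rw [Finset.sum_congr rfl e2, ← Finset.sum_div, smul_eq_mul]
      rw [num_false, den_cons, bsum_cast, bsum_cast, Finset.sum_add_distrib, ← Finset.sum_mul,
        Int.cast_mul, ← div_div, mul_div_assoc', inv_mul_eq_div, div_right_comm]

theorem mom' {n : ℕ} (t : G) (x : Fin n → Fin 11 → G) (w : List (Fin n × Bool)) :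
    (tvn G).τ (wv (tvn G) (fun i => val t (x i)) w) =
      (((num t x w 1).1 : ℂ) + ((num t x w 1).2 : ℂ) * Complex.I) / (den t x w : ℂ) := by
  rw [← mom, lamE_one, one_mul]

end Pool.Agent.Zk94.IG
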